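import Mathlib

/-!
# A real vector is a positive combination of near integer directions with the same rational relations
-/

set_option autoImplicit false

namespace Pool.Agent.J4.H20.RT

/-- Clearing denominators. -/
theorem clear_den {ι : Type*} [Fintype ι] (x : ι → ℚ) :
    ∃ (N : ℕ) (n : ι → ℤ), 0 < N ∧ ∀ i, x i * N = n i := by
  classical
  refine ⟨∏ i, (x i).den, fun i => (x i).num * ∏ j ∈ Finset.univ.erase i, ((x j).den : ℤ),
    Finset.prod_pos fun i _ => (x i).den_pos, fun i => ?_⟩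
  rw [← Finset.mul_prod_erase Finset.univ (fun j => (x j).den) (Finset.mem_univ i)]
  push_cast
  rw [← mul_assoc, Rat.mul_den_eq_num]

theorem approx {ι : Type} [Fintype ι] (b : ι → ℝ) {U : Set (ι → ℝ)} (hU : IsOpen U) (hb : b ∈ U) :
    ∃ (r : ℕ) (c : Fin r → ℝ) (n : Fin r → ι → ℤ), 1 ≤ r ∧ (∀ s, 0 < c s) ∧
      (∀ i, b i = ∑ s, c s * n s i) ∧
      ∀ s, (∃ t : ℝ, 0 < t ∧ (fun i => t * (n s i : ℝ)) ∈ U) ∧
        ∀ z : ι → ℤ, ∑ i, (z i : ℝ) * b i = 0 → ∑ i, z i * n s i = 0 := by
  classical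
  let E : Submodule ℚ ℝ := Submodule.span ℚ (Set.range b)
  have hfin : Module.Finite ℚ E := by
    have : (Set.range b).Finite := Set.finite_range b
    exact Module.Finite.span_of_finite ℚ this
  let e := Module.finBasis ℚ E
  have hbE : ∀ i, b i ∈ E := fun i => Submodule.subset_span ⟨i, rfl⟩
  let q : ι → Fin (Module.finrank ℚ E) → ℚ := fun i j => e.repr ⟨b i, hbE i⟩ j
  let y : Fin (Module.finrank ℚ E) → ℝ := fun j => (e j : ℝ)
  have hq : ∀ i, ∑ j, (q i j : ℝ) * y j = b i := by
    intro i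
    have h1 := e.sum_repr ⟨b i, hbE i⟩
    have h2 := congrArg (Subtype.val : E → ℝ) h1
    simp only [AddSubmonoidClass.coe_finsetSum, Submodule.coe_smul, Rat.smul_def] at h2
    exact h2
  have hrel : ∀ z : ι → ℤ, ∑ i, (z i : ℝ) * b i = 0 → ∀ j, ∑ i, (z i : ℚ) * q i j = 0 := by
    intro z hz j
    have h1 : ∑ i, (z i : ℚ) • (⟨b i, hbE i⟩ : E) = 0 := by
      apply Subtype.ext
      simp only [AddSubmonoidClass.coe_finsetSum, Submodule.coe_smul, Rat.smul_def, Submodule.coe_zero]
      rw [← hz]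
      refine Finset.sum_congr rfl fun i _ => ?_
      norm_num
    have h2 := congrArg (fun v => e.repr v j) h1
    simp only [map_sum, map_smul, Finsupp.finsetSum_apply, Finsupp.smul_apply, smul_eq_mul, map_zero,
      Finsupp.zero_apply] at h2
    exact h2
  let Q : (Fin (Module.finrank ℚ E) → ℝ) →ₗ[ℝ] (ι → ℝ) :=
    { toFun := fun p i => ∑ j, (q i j : ℝ) * p j
      map_add' := fun p p' => by
        funext i
        simp only [Pi.add_apply, mul_add, Finset.sum_add_distrib]
      map_smul' := fun a p => by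
        funext i
        simp only [Pi.smul_apply, smul_eq_mul, RingHom.id_apply, Finset.mul_sum]
        exact Finset.sum_congr rfl fun j _ => by ring }
  have hQy : Q y = b := funext hq
  have hQc : Continuous Q := LinearMap.continuous_of_finiteDimensional Q
  have hU' : IsOpen (Q ⁻¹' U) := hU.preimage hQc
  have hy : y ∈ Q ⁻¹' U := by
    change Q y ∈ U
    rw [hQy]
    exact hb
  obtain ⟨ε, hε, hball⟩ := Metric.isOpen_iff.1 hU' y hy
  let t : Fin (Module.finrank ℚ E) → Set ℝ := fun j => {x | (∃ p : ℚ, (p : ℝ) = x) ∧ dist x (y j) < ε}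
  have hconv : y ∈ convexHull ℝ (Set.univ.pi t) := by
    rw [convexHull_pi]
    intro j _
    obtain ⟨p, hp1, hp2⟩ := exists_rat_btwn (show y j - ε < y j by linarith)
    obtain ⟨p', hp1', hp2'⟩ := exists_rat_btwn (show y j < y j + ε by linarith)
    have h1 : (p : ℝ) ∈ t j := ⟨⟨p, rfl⟩, by
      rw [Real.dist_eq, abs_lt]; constructor <;> linarith⟩
    have h2 : (p' : ℝ) ∈ t j := ⟨⟨p', rfl⟩, by
      rw [Real.dist_eq, abs_lt]; constructor <;> linarith⟩
    refine segment_subset_convexHull h1 h2 ?_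
    rw [segment_eq_Icc (by linarith)]
    exact ⟨hp2.le, hp1'.le⟩
  have hconv' : b ∈ convexHull ℝ (Q '' Set.univ.pi t) := by
    rw [← LinearMap.image_convexHull, ← hQy]
    exact ⟨y, hconv, rfl⟩
  obtain ⟨κ, hκ, z, w, hz, -, hw, hw1, hwz⟩ := eq_pos_convex_span_of_mem_convexHull hconv'
  have hpt : ∀ s : κ, ∃ (N : ℕ) (n : ι → ℤ), 0 < N ∧ (∀ i, z s i * N = n i) ∧ z s ∈ U ∧
      ∀ m : ι → ℤ, ∑ i, (m i : ℝ) * b i = 0 → ∑ i, m i * n i = 0 := by
    intro s
    obtain ⟨p, hp, hps⟩ := hz ⟨s, rfl⟩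
    have hp' : ∀ j, ∃ a : ℚ, (a : ℝ) = p j := fun j => (hp j trivial).1
    choose a ha using hp'
    obtain ⟨N, n, hN, hn⟩ := clear_den fun i => ∑ j, q i j * a j
    have hzs : ∀ i, z s i = ((∑ j, q i j * a j : ℚ) : ℝ) := by
      intro i
      rw [← hps]
      change ∑ j, (q i j : ℝ) * p j = _
      push_cast
      exact Finset.sum_congr rfl fun j _ => by rw [ha j]
    refine ⟨N, n, hN, fun i => ?_, ?_, ?_⟩
    · rw [hzs i]
      exact_mod_cast hn i
    · rw [← hps]
      apply hball
      rw [Metric.mem_ball, dist_pi_lt_iff hε]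
      exact fun j => (hp j trivial).2
    · intro m hm
      have h1 := hrel m hm
      have h2 : ∑ i, (m i : ℚ) * n i = 0 := by
        calc ∑ i, (m i : ℚ) * n i = ∑ i, (m i : ℚ) * ((∑ j, q i j * a j) * N) :=
              Finset.sum_congr rfl fun i _ => by rw [hn i]
          _ = ∑ i, ∑ j, (m i : ℚ) * q i j * (a j * N) :=
              Finset.sum_congr rfl fun i _ => by
                rw [Finset.sum_mul, Finset.mul_sum]
                exact Finset.sum_congr rfl fun j _ => by ring
          _ = ∑ j, (∑ i, (m i : ℚ) * q i j) * (a j * N) := by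
              rw [Finset.sum_comm]
              exact Finset.sum_congr rfl fun j _ => by rw [Finset.sum_mul]
          _ = 0 := Finset.sum_eq_zero fun j _ => by rw [h1 j, zero_mul]
      exact_mod_cast h2
  choose N n hN hNz hzU hnm using hpt
  let f := Fintype.equivFin κ
  have hκ1 : 1 ≤ Fintype.card κ := by
    rcases Nat.eq_zero_or_pos (Fintype.card κ) with h | h
    · have := Fintype.card_eq_zero_iff.1 h
      rw [Finset.univ_eq_empty, Finset.sum_empty] at hw1
      exact absurd hw1 zero_ne_one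
    · exact h
  refine ⟨Fintype.card κ, fun s => w (f.symm s) / N (f.symm s), fun s => n (f.symm s), hκ1, fun s => ?_,
    fun i => ?_, fun s => ⟨⟨(N (f.symm s) : ℝ)⁻¹, ?_, ?_⟩, hnm _⟩⟩
  · have h1 : (0 : ℝ) < N (f.symm s) := by exact_mod_cast hN _
    exact div_pos (hw _) h1
  · rw [Equiv.sum_comp f.symm (fun s => w s / N s * (n s i : ℝ)), ← hwz, Finset.sum_apply]
    refine Finset.sum_congr rfl fun s _ => ?_
    have h1 : (N s : ℝ) ≠ 0 := by
      have : 0 < N s := hN s
      positivity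
    rw [Pi.smul_apply, smul_eq_mul, ← hNz s i]
    field_simp
  · have h1 : (0 : ℝ) < N (f.symm s) := by exact_mod_cast hN _
    positivity
  · have h1 : (N (f.symm s) : ℝ) ≠ 0 := by
      have : 0 < N (f.symm s) := hN _
      positivity
    have h2 : (fun i => ((N (f.symm s) : ℝ))⁻¹ * (n (f.symm s) i : ℝ)) = z (f.symm s) := by
      funext i
      rw [← hNz (f.symm s) i]
      field_simp
    rw [h2]
    exact hzU _

end Pool.Agent.J4.H20.RT
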