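import Pool.Agent.R800.UA.WeilDefs
import Pool.Agent.TH735.AQ.MirDefs

/-!
# Real divisor classes on torus quotients
-/

set_option autoImplicit false

namespace Pool.Agent.J4.H20.RT

open Pool.Agent.W594.SYZ2 Pool.Agent.R800.UA

variable {V W : Type*} [NormedAddCommGroup V] [NormedSpace ℂ V] [NormedAddCommGroup W]
  [NormedSpace ℂ W] {Γ : Subgroup (V ≃ᵃ[ℂ] V)}

/-- The class `F` is the sum of the classes `D` and `E`: `O(D) ⊗ O(E)` is isomorphic to `O(F)`, by
the multiplication with a nowhere vanishing holomorphic function `h`. -/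
def IsSum (D E F : WeilClass Γ) : Prop :=
  ∃ h : V → ℂ, Differentiable ℂ h ∧ (∀ v, h v ≠ 0) ∧
    ∀ (γ : Γ) (v : V), h ((γ : V ≃ᵃ[ℂ] V) v) * (D.e γ v * E.e γ v) = F.e γ v * h v

/-- The subspace generated by the relations `[D] + [E] = [F]` for all classes with `F = D + E`. -/
noncomputable def relations (Γ : Subgroup (V ≃ᵃ[ℂ] V)) : Submodule ℝ (WeilClass Γ →₀ ℝ) :=
  Submodule.span ℝ {x | ∃ D E F : WeilClass Γ, IsSum D E F ∧
    x = Finsupp.single D 1 + Finsupp.single E 1 - Finsupp.single F 1}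

/-- The space of the classes of real divisors on `X = V / Γ`, that is, the tensor product of `ℝ` with the
group of the isomorphism classes of `WeilClass Γ`. A multiple of each Weil divisor class on `X` is Cartier,
so this is also the space of the real line bundles on `X`. -/
abbrev RealClass (Γ : Subgroup (V ≃ᵃ[ℂ] V)) : Type _ := (WeilClass Γ →₀ ℝ) ⧸ relations Γ

/-- The class of `D` in this space. -/
noncomputable def cls (D : WeilClass Γ) : RealClass Γ :=
  (relations Γ).mkQ (Finsupp.single D 1)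

/-- `P` is the pullback `f^* A` of the line bundle `A` on `W / Δ` under the map `f : V / Γ → W / Δ`
induced by the linear map `π`: its factor of automorphy is `γ ↦ A.e δ (π v)`, where `δ` is the
transformation of `W` induced by `γ`. -/
def IsPull {Δ : Subgroup (W ≃ᵃ[ℂ] W)} (P : WeilClass Γ) (A : LineBundle Δ) (π : V →ₗ[ℂ] W) : Prop :=
  ∀ (γ : Γ) (δ : Δ), (∀ v, (δ : W ≃ᵃ[ℂ] W) (π v) = π ((γ : V ≃ᵃ[ℂ] V) v)) →
    ∀ v, P.e γ v = A.e δ (π v)

/-- The real divisor class `x` on `X = V / Γ` with the Chern form `H` is the pullback `f^* A` of an ample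
real divisor `A` under the map `f : X → Z = W / Δ` induced by `π`: here `A = ∑ a j • A j` is a positive
real combination of line bundles `A j` on `Z` which are ample, that is, their Chern forms `HA j` are
positive definite. The Chern form `H` is the corresponding combination of the pullbacks of the forms
`HA j`. -/
def IsAmplePullback (x : RealClass Γ) (H : V → V → ℂ) (Δ : Subgroup (W ≃ᵃ[ℂ] W))
    (π : V →ₗ[ℂ] W) : Prop :=
  ∃ (r : ℕ) (a : Fin r → ℝ) (A : Fin r → LineBundle Δ) (HA : Fin r → W → W → ℂ)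
    (P : Fin r → WeilClass Γ), 1 ≤ r ∧
      (∀ j, 0 < a j ∧ IsChernForm (A j) (HA j) ∧ IsPositiveForm (HA j) ∧ IsPull (P j) (A j) π) ∧
      x = ∑ j, a j • cls (P j) ∧ ∀ v w, H v w = ∑ j, (a j : ℂ) * HA j (π v) (π w)

/-- `K` is the canonical class of `X = V / Γ`, where `ρ` defines the ramification divisor of `V → X`: the
local section `g` of `O_X(K)` is the form `g ρ dv`, which is invariant under `Γ`. -/
def IsCanonical (K : WeilClass Γ) (ρ : V → ℂ) : Prop :=
  ∀ (γ : Γ) (v : V), ρ v =
    K.e γ v * LinearMap.det ((γ : V ≃ᵃ[ℂ] V).linear : V →ₗ[ℂ] V) * ρ ((γ : V ≃ᵃ[ℂ] V) v)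

/-- The Chern form of `K + ∑ b i • B i`, where `HK` and `HB i` are the Chern forms of `K` and `B i`. -/
noncomputable def chernSum {k : ℕ} (HK : V → V → ℂ) (HB : Fin k → V → V → ℂ) (b : Fin k → ℝ)
    (v w : V) : ℂ := HK v w + ∑ i, (b i : ℂ) * HB i v w

end Pool.Agent.J4.H20.RT
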