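import Pool.Agent.J4.H20.RT.Pos
import Pool.Agent.J4.H20.RT.Defs

/-!
# Sums of classes
-/

set_option autoImplicit false

namespace Pool.Agent.J4.H20.RT

open Pool.Agent.W594.SYZ2 Pool.Agent.W594.SYZ2.TQ Pool.Agent.TH735.AQ Pool.Agent.R893.TQ
open Pool.Agent.R800.UA Pool.Agent.R800.UB

variable {V : Type*} [NormedAddCommGroup V] [NormedSpace ℂ V] {Γ : Subgroup (V ≃ᵃ[ℂ] V)}

theorem cls_sum {D E F : WeilClass Γ} (h : IsSum D E F) : cls F = cls D + cls E := by
  have h1 : (relations Γ).mkQ (Finsupp.single D 1 + Finsupp.single E 1 - Finsupp.single F 1) = 0 := by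
    rw [Submodule.mkQ_apply, Submodule.Quotient.mk_eq_zero]
    exact Submodule.subset_span ⟨D, E, F, h, rfl⟩
  rw [map_sub, map_add, sub_eq_zero] at h1
  exact h1.symm

theorem cls_mult_zero (D : WeilClass Γ) : cls (D.mult 0) = 0 := by
  have h : IsSum (D.mult 0) (D.mult 0) (D.mult 0) := by
    refine ⟨fun _ => 1, differentiable_const _, fun _ => one_ne_zero, fun γ v => ?_⟩
    change (1 : ℂ) * (D.e γ v ^ 0 * D.e γ v ^ 0) = D.e γ v ^ 0 * 1
    simp
  have h1 := cls_sum h
  exact left_eq_add.1 h1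

theorem cls_iso {D E : WeilClass Γ} {h : V → ℂ} (hd : Differentiable ℂ h) (hne : ∀ v, h v ≠ 0)
    (heq : ∀ (γ : Γ) (v : V), h ((γ : V ≃ᵃ[ℂ] V) v) * D.e γ v = E.e γ v * h v) : cls E = cls D := by
  have h1 : IsSum D (D.mult 0) E := by
    refine ⟨h, hd, hne, fun γ v => ?_⟩
    change h ((γ : V ≃ᵃ[ℂ] V) v) * (D.e γ v * D.e γ v ^ 0) = E.e γ v * h v
    rw [pow_zero, mul_one, heq]
  rw [cls_sum h1, cls_mult_zero, add_zero]

theorem cls_mult (D : WeilClass Γ) (k : ℕ) : cls (D.mult k) = (k : ℝ) • cls D := by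
  induction k with
  | zero => rw [cls_mult_zero, Nat.cast_zero, zero_smul]
  | succ k ih =>
    have h1 : IsSum (D.mult k) D (D.mult (k + 1)) := by
      refine ⟨fun _ => 1, differentiable_const _, fun _ => one_ne_zero, fun γ v => ?_⟩
      change (1 : ℂ) * (D.e γ v ^ k * D.e γ v) = D.e γ v ^ (k + 1) * 1
      ring
    rw [cls_sum h1, ih, Nat.cast_succ, add_smul, one_smul]

theorem diff_prod {ι : Type} (s : Finset ι) (f : ι → V → ℂ) (hf : ∀ i, Differentiable ℂ (f i)) :
    Differentiable ℂ fun v => ∏ i ∈ s, f i v := by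
  classical
  induction s using Finset.induction_on with
  | empty =>
    simp only [Finset.prod_empty]
    exact differentiable_const _
  | insert j s hj ih =>
    simp only [Finset.prod_insert hj]
    exact (hf j).mul ih

/-- The class `∑ n i • D i`. -/
noncomputable def comb {ι : Type} (D : ι → WeilClass Γ) (n : ι → ℕ) (s : Finset ι) : WeilClass Γ where
  e := fun γ v => ∏ i ∈ s, (D i).e γ v ^ n i
  holo := fun γ => diff_prod s (fun i v => (D i).e γ v ^ n i) fun i => ((D i).holo γ).pow (n i)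
  ne_zero := fun γ v => Finset.prod_ne_zero_iff.2 fun i _ => pow_ne_zero _ ((D i).ne_zero γ v)
  mul := fun γ δ v => by
    rw [← Finset.prod_mul_distrib]
    exact Finset.prod_congr rfl fun i _ => by rw [(D i).mul, mul_pow]

theorem cls_comb {ι : Type} (D : ι → WeilClass Γ) (n : ι → ℕ) (s : Finset ι) :
    cls (comb D n s) = ∑ i ∈ s, (n i : ℝ) • cls (D i) := by
  classical
  induction s using Finset.induction_on with
  | empty =>
    rw [Finset.sum_empty]
    have h : IsSum (comb D n ∅) (comb D n ∅) (comb D n ∅) := by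
      refine ⟨fun _ => 1, differentiable_const _, fun _ => one_ne_zero, fun γ v => ?_⟩
      change (1 : ℂ) * ((∏ i ∈ ∅, (D i).e γ v ^ n i) * ∏ i ∈ ∅, (D i).e γ v ^ n i)
        = (∏ i ∈ ∅, (D i).e γ v ^ n i) * 1
      simp
    exact left_eq_add.1 (cls_sum h)
  | insert j s hj ih =>
    have h : IsSum ((D j).mult (n j)) (comb D n s) (comb D n (insert j s)) := by
      refine ⟨fun _ => 1, differentiable_const _, fun _ => one_ne_zero, fun γ v => ?_⟩
      change (1 : ℂ) * ((D j).e γ v ^ n j * ∏ i ∈ s, (D i).e γ v ^ n i)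
        = (∏ i ∈ insert j s, (D i).e γ v ^ n i) * 1
      rw [Finset.prod_insert hj]
      ring
    rw [cls_sum h, cls_mult, ih, Finset.sum_insert hj]

theorem chern_comb {ι : Type} [Fintype ι] {D : ι → WeilClass Γ} {G : ι → V → V → ℂ}
    (hc : ∀ i, (D i).HasChernForm (G i)) (n : ι → ℕ) :
    (comb D n Finset.univ).HasChernForm (sumH G fun i => (n i : ℝ)) := by
  refine ⟨sumH_herm (fun i => (hc i).1) _, ?_⟩
  choose hH F hF hFe using hc
  refine ⟨fun v => ∑ i, (n i : ℂ) * F i v, ?_, fun γ v => ?_⟩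
  · exact Differentiable.fun_sum fun i _ => (hF i).const_mul _
  · have h1 : ‖(comb D n Finset.univ).e γ v‖ ^ 2 = ∏ i, (‖(D i).e γ v‖ ^ 2) ^ n i := by
      change ‖∏ i, (D i).e γ v ^ n i‖ ^ 2 = _
      rw [norm_prod, ← Finset.prod_pow]
      refine Finset.prod_congr rfl fun i _ => ?_
      rw [norm_pow, ← pow_mul, ← pow_mul, mul_comm]
    rw [h1, sumH_re, sumH_re, Finset.prod_congr rfl fun i _ => by
      rw [hFe i γ v, ← Real.exp_nat_mul], ← Real.exp_sum]
    congr 1
    simp only [Complex.re_sum]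
    rw [Finset.mul_sum, Finset.mul_sum, Finset.mul_sum, Finset.mul_sum, ← Finset.sum_add_distrib,
      ← Finset.sum_add_distrib, ← Finset.sum_sub_distrib]
    refine Finset.sum_congr rfl fun i _ => ?_
    rw [natCast_mul_re, natCast_mul_re]
    ring

end Pool.Agent.J4.H20.RT
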