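import Pool.Agent.J4.H20.RT.Liou
import Pool.Agent.J4.H20.RT.Defs

/-!
# The kernel of the Chern form of a real log canonical divisor is spanned by lattice vectors
-/

set_option autoImplicit false

namespace Pool.Agent.J4.H20.RT

open Pool.Agent.W594.SYZ2 Pool.Agent.W594.SYZ2.TQ Pool.Agent.TH735.AQ Pool.Agent.R893.TQ
open Pool.Agent.R800.UA Pool.Agent.R800.UB

section

variable {V : Type*} [NormedAddCommGroup V] [NormedSpace ℂ V] {Γ : Subgroup (V ≃ᵃ[ℂ] V)}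

/-- `γ` fixes each point of a complex affine hyperplane. -/
def IsRefl (γ : V ≃ᵃ[ℂ] V) : Prop :=
  ∃ (ℓ : V →ₗ[ℂ] ℂ) (v₀ : V), ℓ ≠ 0 ∧ ∀ w, ℓ w = ℓ v₀ → γ w = w

theorem refl_lin {γ : V ≃ᵃ[ℂ] V} {ℓ : V →ₗ[ℂ] ℂ} {v₀ : V} (hfix : ∀ w, ℓ w = ℓ v₀ → γ w = w)
    {w : V} (hw : ℓ w = 0) : γ.linear w = w := by
  have h0 : γ v₀ = v₀ := hfix _ rfl
  have h1 : γ (v₀ + w) = v₀ + w := hfix _ (by rw [map_add, hw, add_zero])
  rw [act_add, h0] at h1
  exact add_left_cancel h1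

theorem refl_dec {γ : V ≃ᵃ[ℂ] V} {ℓ : V →ₗ[ℂ] ℂ} {v₀ : V} (hfix : ∀ w, ℓ w = ℓ v₀ → γ w = w)
    {x : V} (hx : ℓ x ≠ 0) (v : V) : γ.linear v - v = (ℓ v / ℓ x) • (γ.linear x - x) := by
  have h1 := refl_lin hfix (w := v - (ℓ v / ℓ x) • x) (by
    rw [map_sub, map_smul, smul_eq_mul, div_mul_cancel₀ _ hx, sub_self])
  rw [map_sub, map_smul] at h1
  rw [smul_sub]
  have h2 : γ.linear v = v - (ℓ v / ℓ x) • x + (ℓ v / ℓ x) • γ.linear x := by
    rw [← h1]
    abel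
  rw [h2]
  abel

/-- The vectors of `K` fixed by the linear parts acting trivially on `V / K` are fixed by all
reflections. -/
theorem refl_fix (K : Submodule ℂ V) (hK : ∀ γ ∈ Γ, ∀ v ∈ K, γ.linear v ∈ K) {x : V}
    (hx : x ∈ KN Γ K) {γ : V ≃ᵃ[ℂ] V} (hγ : γ ∈ Γ) (hr : IsRefl γ) : γ.linear x = x := by
  obtain ⟨ℓ, v₀, hℓ, hfix⟩ := hr
  by_cases hℓx : ℓ x = 0
  · exact refl_lin hfix hℓx
  · let g : Lin Γ := ⟨γ.linear, γ, hγ, rfl⟩
    have hgN : g ∈ NK Γ K := by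
      intro v
      change γ.linear v - v ∈ K
      rw [refl_dec hfix hℓx v]
      exact K.smul_mem _ (K.sub_mem (hK γ hγ x hx.1) hx.1)
    exact hx.2 g hgN

/-- Translations by vectors fixed by all reflections preserve the complement of the mirrors. -/
theorem not_mirror {v₀ x : V} (hv : ¬ OnMirror Γ v₀)
    (hx : ∀ γ ∈ Γ, IsRefl γ → γ.linear x = x) : ¬ OnMirror Γ (v₀ + x) := by
  rintro ⟨γ, hγ, hne, ℓ, hℓ, hfix⟩
  have hgx : γ.linear x = x := hx γ hγ ⟨ℓ, v₀ + x, hℓ, hfix⟩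
  have hℓx : ℓ x = 0 := by
    by_contra hℓx
    apply hne
    have h0 : γ (v₀ + x) = v₀ + x := hfix _ rfl
    have hid : ∀ v, γ.linear v = v := by
      intro v
      have h1 := refl_dec hfix hℓx v
      rw [hgx, sub_self, smul_zero, sub_eq_zero] at h1
      exact h1
    apply AffineEquiv.ext
    intro v
    have h1 : γ v = γ.linear (v - (v₀ + x)) + γ (v₀ + x) := by
      rw [act γ v, act γ (v₀ + x), map_sub]
      abel
    rw [h1, hid, h0, sub_add_cancel]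
    rfl
  exact hv ⟨γ, hγ, hne, ℓ, hℓ, fun w hw => hfix w (by rw [hw, map_add, hℓx, add_zero])⟩

/-- The group generated by the linear parts of the reflections. -/
def Nref (Γ : Subgroup (V ≃ᵃ[ℂ] V)) : Subgroup (Lin Γ) :=
  Subgroup.closure {g | ∃ γ ∈ Γ, IsRefl γ ∧ γ.linear = g.1}

theorem mem_nref {γ : V ≃ᵃ[ℂ] V} (hγ : γ ∈ Γ) (hr : IsRefl γ) :
    (⟨γ.linear, γ, hγ, rfl⟩ : Lin Γ) ∈ Nref Γ :=
  Subgroup.subset_closure ⟨γ, hγ, hr, rfl⟩

theorem nref_fix {x : V} (hx : ∀ γ ∈ Γ, IsRefl γ → γ.linear x = x) :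
    ∀ g ∈ Nref Γ, g.1 x = x := by
  intro g hg
  refine Subgroup.closure_induction (p := fun g _ => g.1 x = x) ?_ ?_ ?_ ?_ hg
  · rintro g ⟨γ, hγ, hr, h⟩
    rw [← h]
    exact hx γ hγ hr
  · rfl
  · intro g h _ _ h1 h2
    have h3 : ((g * h : Lin Γ) : V ≃ₗ[ℂ] V) x = g.1 (h.1 x) := rfl
    rw [h3, h2, h1]
  · intro g _ h1
    have h2 : g.1 (((g⁻¹ : Lin Γ) : V ≃ₗ[ℂ] V) x) = x := by
      have h3 : ((g * g⁻¹ : Lin Γ) : V ≃ₗ[ℂ] V) x = x := by rw [mul_inv_cancel]; rfl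
      exact h3
    exact g.1.injective (h2.trans h1.symm)

/-- The elements of a subgroup as a finite set. -/
theorem exists_fin (hΓ : IsTorusQuotient Γ) (N : Subgroup (Lin Γ)) :
    ∃ Ns : Finset (Lin Γ), 1 ≤ Ns.card ∧ (∀ g, g ∈ Ns ↔ g ∈ N) ∧
      ∀ v, ∀ g ∈ N, g.1 (∑ h ∈ Ns, h.1 v) = ∑ h ∈ Ns, h.1 v := by
  classical
  have := finite_Lin hΓ
  have : Fintype (Lin Γ) := Fintype.ofFinite _
  have hmem : ∀ g, g ∈ Finset.univ.filter (· ∈ N) ↔ g ∈ N := fun g => by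
    rw [Finset.mem_filter]
    exact ⟨fun h => h.2, fun h => ⟨Finset.mem_univ _, h⟩⟩
  refine ⟨Finset.univ.filter (· ∈ N), Finset.card_pos.2 ⟨1, (hmem 1).2 N.one_mem⟩, hmem, ?_⟩
  intro v g hg
  rw [map_sum]
  refine Finset.sum_bij (fun h _ => g * h) ?_ ?_ ?_ ?_
  · intro h hh
    rw [hmem] at hh ⊢
    exact N.mul_mem hg hh
  · intro h _ h' _ heq
    exact mul_left_cancel heq
  · intro h hh
    rw [hmem] at hh
    exact ⟨g⁻¹ * h, (hmem _).2 (N.mul_mem (N.inv_mem hg) hh), by rw [mul_inv_cancel_left]⟩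
  · intro h _
    rfl

/-- The vectors fixed by a group of linear parts. -/
def fixedSpace (N : Subgroup (Lin Γ)) : Submodule ℂ V where
  carrier := {x | ∀ g ∈ N, g.1 x = x}
  add_mem' := by
    intro x y hx hy g hg
    rw [map_add, hx g hg, hy g hg]
  zero_mem' := fun g _ => map_zero _
  smul_mem' := by
    intro c x hx g hg
    rw [map_smul, hx g hg]

end

variable {V : Type*} [NormedAddCommGroup V] [NormedSpace ℂ V] [FiniteDimensional ℂ V]
  {Γ : Subgroup (V ≃ᵃ[ℂ] V)}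

/-- The Chern form of `K_X` vanishes on the vectors fixed by all reflections. -/
theorem canonical_zero (hΓ : IsTorusQuotient Γ) {ρ : V → ℂ} (hρ : IsRamification Γ ρ)
    {K : WeilClass Γ} (hK : IsCanonical K ρ) {H : V → V → ℂ} (hc : K.HasChernForm H) {x : V}
    (hx : x ∈ fixedSpace (Nref Γ)) (w : V) : H x w = 0 := by
  have hH := hc.1
  have hfixed : ∀ y ∈ fixedSpace (Nref Γ), ∀ γ ∈ Γ, IsRefl γ → γ.linear y = y :=
    fun y hy γ hγ hr => hy _ (mem_nref hγ hr)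
  have hrat : ∀ y ∈ fixedSpace (Nref Γ),
      y ∈ Submodule.span ℝ {b | b ∈ latt Γ ∧ b ∈ fixedSpace (Nref Γ)} := by
    intro y hy
    have h := rat_fixed hΓ (Nref Γ) ⊤ (fun _ _ _ => trivial) (fun z _ => by
      have h1 : {b : V | b ∈ latt Γ ∧ b ∈ (⊤ : Submodule ℂ V)} = (latt Γ : Set V) := by
        ext b
        exact ⟨fun h => h.1, fun h => ⟨h, trivial⟩⟩
      rw [h1, hΓ.span_top]
      trivial) (x := y) trivial hy
    refine Submodule.span_mono ?_ h
    rintro b ⟨h1, -, h3⟩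
    exact ⟨h1, h3⟩
  obtain ⟨v₀, hv₀⟩ := ram_ne_zero hρ
  have hmir : ¬ OnMirror Γ v₀ := fun h => hv₀ ((hρ.zero_iff v₀).2 h)
  have hre : ∀ y ∈ fixedSpace (Nref Γ), (H y y).re = 0 := by
    intro y hy
    refine zero_of_unit K hc hρ.holo ?_ (fixedSpace (Nref Γ)) hrat v₀ ?_ hy
    · intro b hb v
      have h1 := hK (tr b hb) v
      have h2 : LinearMap.det (((tr b hb : Γ) : V ≃ᵃ[ℂ] V).linear : V →ₗ[ℂ] V) = 1 := by
        have h3 : (((tr b hb : Γ) : V ≃ᵃ[ℂ] V).linear : V →ₗ[ℂ] V) = LinearMap.id := by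
          ext w
          exact tr_linear b hb w
        rw [h3, LinearMap.det_id]
      rw [h2, mul_one, tr_apply] at h1
      exact h1
    · intro y hy h0
      exact not_mirror hmir (hfixed y hy) ((hρ.zero_iff _).1 h0)
  have hre2 : ∀ y ∈ fixedSpace (Nref Γ), (H x y).re = 0 := by
    intro y hy
    have h1 := hre _ ((fixedSpace (Nref Γ)).add_mem hx hy)
    rw [h_diag_add hH, hre x hx, hre y hy] at h1
    linarith
  have hzero : ∀ y ∈ fixedSpace (Nref Γ), H x y = 0 := by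
    intro y hy
    apply Complex.ext
    · exact hre2 y hy
    · have h1 := hre2 (Complex.I • y) ((fixedSpace (Nref Γ)).smul_mem _ hy)
      rw [h_smul_right hH] at h1
      simpa using h1
  obtain ⟨Ns, hNs, hmem, hfix⟩ := exists_fin hΓ (Nref Γ)
  have h1 : ∀ g ∈ Ns, H x (g.1 w) = H x w := by
    intro g hg
    have h2 := hx g ((hmem g).1 hg)
    obtain ⟨g, γ, hγ, rfl⟩ := g
    have h3 := weil_inv hΓ hc ⟨γ, hγ⟩ x w
    change γ.linear x = x at h2
    change H (γ.linear x) (γ.linear w) = H x w at h3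
    rw [h2] at h3
    exact h3
  have h2 : ∀ s : Finset (Lin Γ), H x (∑ g ∈ s, g.1 w) = ∑ g ∈ s, H x (g.1 w) := by
    classical
    intro s
    induction s using Finset.induction_on with
    | empty => simp [h_zero_right hH]
    | insert g s hg ih => rw [Finset.sum_insert hg, Finset.sum_insert hg, h_add_right hH, ih]
  have h3 := h2 Ns
  rw [Finset.sum_congr rfl h1, Finset.sum_const, hzero _ (fun g hg => hfix w g hg), nsmul_eq_mul] at h3
  have h4 : ((Ns.card : ℕ) : ℂ) ≠ 0 := Nat.cast_ne_zero.2 (by omega)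
  exact (mul_eq_zero.1 h3.symm).resolve_left h4

/-- The common kernel of the forms `HB i`, `i ∈ I`. -/
def commonKer {k : ℕ} {HB : Fin k → V → V → ℂ} (hB : ∀ i, IsHermitian (HB i)) (I : Finset (Fin k)) :
    Submodule ℂ V where
  carrier := {v | ∀ i ∈ I, ∀ w, HB i v w = 0}
  add_mem' := by
    intro u v hu hv i hi w
    rw [(hB i).add_left, hu i hi, hv i hi, add_zero]
  zero_mem' := fun i _ w => h_zero_left (hB i) w
  smul_mem' := by
    intro c v hv i hi w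
    rw [(hB i).smul_left, hv i hi, mul_zero]

/-- The kernel of the Chern form of `K_X + B` is determined by the support of `B` and the group of the
linear parts which act trivially modulo the kernel. -/
theorem ker_struct (hΓ : IsTorusQuotient Γ) {ρ : V → ℂ} (hρ : IsRamification Γ ρ)
    {K : WeilClass Γ} (hK : IsCanonical K ρ) {HK : V → V → ℂ} (hcK : K.HasChernForm HK)
    {k : ℕ} {B : Fin k → WeilClass Γ} {HB : Fin k → V → V → ℂ}
    (hcB : ∀ i, (B i).HasChernForm (HB i)) (hnB : ∀ i, IsNefForm (HB i))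
    {b : Fin k → ℝ} (hb : ∀ i, 0 ≤ b i)
    (hH : IsHermitian fun v w => HK v w + ∑ i, (b i : ℂ) * HB i v w) :
    ∃ (I : Finset (Fin k)) (N : Subgroup (Lin Γ)),
      ker hH = (fixedSpace (Nref Γ) ⊓ commonKer (fun i => (hcB i).1) I) ⊔
        ⨆ g : N, LinearMap.range ((g.1.1 : V →ₗ[ℂ] V) - LinearMap.id) := by
  classical
  have hst : ∀ γ ∈ Γ, ∀ v ∈ ker hH, γ.linear v ∈ ker hH := by
    intro γ hγ v hv w
    have h1 := weil_inv hΓ hcK ⟨γ, hγ⟩ v (γ.linear.symm w)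
    have h2 := fun i => weil_inv hΓ (hcB i) ⟨γ, hγ⟩ v (γ.linear.symm w)
    simp only [LinearEquiv.apply_symm_apply] at h1 h2
    beta_reduce
    rw [h1, Finset.sum_congr rfl fun i _ => by rw [h2 i]]
    exact hv _
  refine ⟨Finset.univ.filter fun i => b i ≠ 0, NK Γ (ker hH), le_antisymm ?_ (sup_le ?_ ?_)⟩
  · intro x hx
    obtain ⟨Ns, hNs, hmem, hfix⟩ := exists_fin hΓ (NK Γ (ker hH))
    have hlin : ∀ g : Lin Γ, ∀ v ∈ ker hH, g.1 v ∈ ker hH := by
      rintro ⟨g, γ, hγ, rfl⟩ v hv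
      exact hst γ hγ v hv
    have hy : (∑ g ∈ Ns, g.1 x) ∈ KN Γ (ker hH) :=
      ⟨(ker hH).sum_mem fun g _ => hlin g x hx, fun g hg => hfix x g hg⟩
    have hyW : (∑ g ∈ Ns, g.1 x) ∈ fixedSpace (Nref Γ) :=
      nref_fix fun γ hγ hr => refl_fix (ker hH) hst hy hγ hr
    have hyR : (∑ g ∈ Ns, g.1 x) ∈ commonKer (fun i => (hcB i).1) (Finset.univ.filter fun i => b i ≠ 0) := by
      set y := ∑ g ∈ Ns, g.1 x
      have h1 := hy.1 y
      beta_reduce at h1
      rw [canonical_zero hΓ hρ hK hcK hyW, zero_add] at h1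
      have h2 : ∑ i, b i * (HB i y y).re = 0 := by
        have h3 := congrArg Complex.re h1
        simpa only [Complex.re_sum, Complex.re_ofReal_mul, Complex.zero_re] using h3
      rw [Finset.sum_eq_zero_iff_of_nonneg fun i _ => mul_nonneg (hb i) (hnB i y)] at h2
      intro i hi w
      exact h_isotropic (hcB i).1 (hnB i) y
        ((mul_eq_zero.1 (h2 i (Finset.mem_univ i))).resolve_left (Finset.mem_filter.1 hi).2) w
    have h3 : x = ((Ns.card : ℂ)⁻¹) • ((∑ g ∈ Ns, g.1 x) - ∑ g ∈ Ns, (g.1 x - x)) := by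
      rw [Finset.sum_sub_distrib, sub_sub_cancel, Finset.sum_const, ← Nat.cast_smul_eq_nsmul ℂ,
        smul_smul, inv_mul_cancel₀ (Nat.cast_ne_zero.2 (by omega)), one_smul]
    rw [h3]
    refine Submodule.smul_mem _ _ (Submodule.sub_mem _ (Submodule.mem_sup_left ⟨hyW, hyR⟩)
      (Submodule.mem_sup_right (Submodule.sum_mem _ fun g hg => ?_)))
    exact Submodule.mem_iSup_of_mem (⟨g, (hmem g).1 hg⟩ : NK Γ (ker hH)) ⟨x, rfl⟩
  · rintro c ⟨h2, h3⟩ w
    beta_reduce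
    rw [canonical_zero hΓ hρ hK hcK (x := c) h2, zero_add]
    refine Finset.sum_eq_zero fun i _ => ?_
    by_cases hi : b i = 0
    · rw [hi, Complex.ofReal_zero, zero_mul]
    · rw [h3 i (Finset.mem_filter.2 ⟨Finset.mem_univ _, hi⟩), mul_zero]
  · refine iSup_le fun g => ?_
    rintro _ ⟨v, rfl⟩
    exact g.2 v

/-- The kernel of the Chern form of `K_X + B`, `B` an effective real divisor, is spanned by lattice
vectors. -/
theorem ker_rat (hΓ : IsTorusQuotient Γ) {ρ : V → ℂ} (hρ : IsRamification Γ ρ)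
    {K : WeilClass Γ} (hK : IsCanonical K ρ) {HK : V → V → ℂ} (hcK : K.HasChernForm HK)
    {k : ℕ} {B : Fin k → WeilClass Γ} {HB : Fin k → V → V → ℂ}
    (hcB : ∀ i, (B i).HasChernForm (HB i)) (hnB : ∀ i, IsNefForm (HB i))
    {b : Fin k → ℝ} (hb : ∀ i, 0 ≤ b i)
    (hH : IsHermitian fun v w => HK v w + ∑ i, (b i : ℂ) * HB i v w)
    {x : V} (hx : x ∈ ker hH) :
    x ∈ Submodule.span ℝ {c | c ∈ latt Γ ∧ c ∈ ker hH} := by
  have hst : ∀ γ ∈ Γ, ∀ v ∈ ker hH, γ.linear v ∈ ker hH := by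
    intro γ hγ v hv w
    have h1 := weil_inv hΓ hcK ⟨γ, hγ⟩ v (γ.linear.symm w)
    have h2 := fun i => weil_inv hΓ (hcB i) ⟨γ, hγ⟩ v (γ.linear.symm w)
    simp only [LinearEquiv.apply_symm_apply] at h1 h2
    beta_reduce
    rw [h1, Finset.sum_congr rfl fun i _ => by rw [h2 i]]
    exact hv _
  -- the common kernel
  let R : Submodule ℂ V :=
    { carrier := {v | ∀ i, b i ≠ 0 → ∀ w, HB i v w = 0}
      add_mem' := by
        intro u v hu hv i hi w
        rw [(hcB i).1.add_left, hu i hi, hv i hi, add_zero]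
      zero_mem' := fun i _ w => h_zero_left (hcB i).1 w
      smul_mem' := by
        intro c v hv i hi w
        rw [(hcB i).1.smul_left, hv i hi, mul_zero] }
  have hRst : ∀ g : Lin Γ, ∀ v ∈ R, g.1 v ∈ R := by
    rintro ⟨g, γ, hγ, rfl⟩ v hv i hi w
    have h2 := weil_inv hΓ (hcB i) ⟨γ, hγ⟩ v (γ.linear.symm w)
    simp only [LinearEquiv.apply_symm_apply] at h2
    exact h2.trans (hv i hi _)
  have hRrat : ∀ y ∈ R, y ∈ Submodule.span ℝ {c | c ∈ latt Γ ∧ c ∈ R} := by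
    classical
    intro y hy
    have := finite_Lin hΓ
    have h := rat_forms hΓ (Finset.univ.filter fun i => b i ≠ 0) HB (fun i => (hcB i).1)
      (N := Nat.card (Lin Γ)) Nat.card_pos (fun i c hc d hd => weil_int hΓ (hcB i) hc hd)
      (x := y) (fun i hi => hy i (Finset.mem_filter.1 hi).2)
    refine Submodule.span_mono ?_ h
    rintro c ⟨h1, h2⟩
    exact ⟨h1, fun i hi => h2 i (Finset.mem_filter.2 ⟨Finset.mem_univ _, hi⟩)⟩
  -- the vectors fixed by the linear parts which are trivial modulo the kernel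
  have key : ∀ y ∈ KN Γ (ker hH), y ∈ Submodule.span ℝ {c | c ∈ latt Γ ∧ c ∈ ker hH} := by
    intro y hy
    have hyW : y ∈ fixedSpace (Nref Γ) :=
      nref_fix fun γ hγ hr => refl_fix (ker hH) hst hy hγ hr
    have hyR : y ∈ R := by
      have h1 := hy.1 y
      beta_reduce at h1
      rw [canonical_zero hΓ hρ hK hcK hyW, zero_add] at h1
      have h2 : ∑ i, b i * (HB i y y).re = 0 := by
        have h3 := congrArg Complex.re h1
        simpa only [Complex.re_sum, Complex.re_ofReal_mul, Complex.zero_re] using h3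
      rw [Finset.sum_eq_zero_iff_of_nonneg fun i _ => mul_nonneg (hb i) (hnB i y)] at h2
      intro i hi w
      exact h_isotropic (hcB i).1 (hnB i) y ((mul_eq_zero.1 (h2 i (Finset.mem_univ i))).resolve_left hi) w
    have h := rat_fixed hΓ (Nref Γ) R hRst hRrat hyR hyW
    refine Submodule.span_mono ?_ h
    rintro c ⟨h1, h2, h3⟩
    refine ⟨h1, fun w => ?_⟩
    beta_reduce
    rw [canonical_zero hΓ hρ hK hcK (x := c) h3, zero_add]
    refine Finset.sum_eq_zero fun i _ => ?_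
    by_cases hi : b i = 0
    · rw [hi, Complex.ofReal_zero, zero_mul]
    · rw [h2 i hi, mul_zero]
  obtain ⟨Ns, hNs, hmem, hfix⟩ := exists_fin hΓ (NK Γ (ker hH))
  have hlin : ∀ g : Lin Γ, ∀ v ∈ ker hH, g.1 v ∈ ker hH := by
    rintro ⟨g, γ, hγ, rfl⟩ v hv
    exact hst γ hγ v hv
  have h1 : (∑ g ∈ Ns, g.1 x) ∈ Submodule.span ℝ {c | c ∈ latt Γ ∧ c ∈ ker hH} :=
    key _ ⟨(ker hH).sum_mem fun g _ => hlin g x hx, fun g hg => hfix x g hg⟩
  have h2 : ∀ g ∈ Ns, g.1 x - x ∈ Submodule.span ℝ {c | c ∈ latt Γ ∧ c ∈ ker hH} := by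
    intro g hg
    let A : V →ₗ[ℝ] V := ((g.1 : V →ₗ[ℂ] V).restrictScalars ℝ) - LinearMap.id
    have h3 : A x ∈ (Submodule.span ℝ (latt Γ : Set V)).map A := by
      rw [hΓ.span_top]
      exact Submodule.mem_map_of_mem trivial
    rw [Submodule.map_span] at h3
    refine Submodule.span_mono ?_ h3
    rintro _ ⟨c, hc, rfl⟩
    refine ⟨?_, (hmem g).1 hg c⟩
    refine (latt Γ).sub_mem ?_ hc
    obtain ⟨g, γ, hγ, rfl⟩ := g
    exact latt_inv γ hγ hc
  have h3 : x = ((Ns.card : ℝ)⁻¹) • ((∑ g ∈ Ns, g.1 x) - ∑ g ∈ Ns, (g.1 x - x)) := by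
    rw [Finset.sum_sub_distrib, sub_sub_cancel, Finset.sum_const, ← Nat.cast_smul_eq_nsmul ℝ,
      smul_smul, inv_mul_cancel₀ (by positivity), one_smul]
  rw [h3]
  exact Submodule.smul_mem _ _ (Submodule.sub_mem _ h1 (Submodule.sum_mem _ h2))

end Pool.Agent.J4.H20.RT
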