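import Pool.Agent.J4.H20.RT.Rat

/-!
# Factors of automorphy with a nowhere vanishing section on a subtorus
-/

set_option autoImplicit false

namespace Pool.Agent.J4.H20.RT

open Pool.Agent.W594.SYZ2 Pool.Agent.W594.SYZ2.TQ Pool.Agent.TH735.AQ Pool.Agent.R893.TQ
open Pool.Agent.R800.UA Pool.Agent.R800.UB

variable {V : Type*} [NormedAddCommGroup V] [NormedSpace ℂ V] [FiniteDimensional ℂ V]
  {Γ : Subgroup (V ≃ᵃ[ℂ] V)}

/-- Hermitian forms are continuous. -/
theorem h_cont {H : V → V → ℂ} (hH : IsHermitian H) : Continuous fun v => (H v v).re := by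
  have : FiniteDimensional ℝ V := FiniteDimensional.complexToReal V
  let B : V →ₗ[ℝ] V →ₗ[ℝ] ℝ := LinearMap.mk₂ ℝ (fun x y => (H x y).re)
    (fun x x' y => by rw [hH.add_left, Complex.add_re])
    (fun c x y => by
      have : c • x = (c : ℂ) • x := (Complex.coe_smul c x).symm
      rw [this, hH.smul_left, Complex.re_ofReal_mul, smul_eq_mul])
    (fun x y y' => by rw [h_add_right hH, Complex.add_re])
    (fun c x y => by
      have : c • y = (c : ℂ) • y := (Complex.coe_smul c y).symm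
      rw [this, h_smul_right hH, Complex.conj_ofReal, Complex.re_ofReal_mul, smul_eq_mul])
  have h1 : (fun v => (H v v).re) = fun v => B v v := rfl
  rw [h1]
  let B' : V →L[ℝ] V →L[ℝ] ℝ := LinearMap.toContinuousLinearMap
    ((LinearMap.toContinuousLinearMap : (V →ₗ[ℝ] ℝ) ≃ₗ[ℝ] (V →L[ℝ] ℝ)).toLinearMap ∘ₗ B)
  have h2 : (fun v => B v v) = fun v => B' v v := rfl
  rw [h2]
  exact (B'.continuous).clm_apply continuous_id

/-- The Chern form of a Weil divisor class is invariant. -/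
theorem weil_inv (hΓ : IsTorusQuotient Γ) {D : WeilClass Γ} {H : V → V → ℂ}
    (hc : D.HasChernForm H) (γ : Γ) (v w : V) :
    H ((γ : V ≃ᵃ[ℂ] V).linear v) ((γ : V ≃ᵃ[ℂ] V).linear w) = H v w := by
  have := finite_Lin hΓ
  have hNpos : 0 < Nat.card (Lin Γ) := Nat.card_pos
  obtain ⟨hH, F, hF, hFe⟩ := D.toLine_chern hc _ (D.cartier hΓ)
  have h := h_inv hH ⟨hF, hFe⟩ γ v w
  exact mul_left_cancel₀ (Nat.cast_ne_zero.2 hNpos.ne') h

/-- A multiple of the Chern form of a Weil divisor class is integral. -/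
theorem weil_int (hΓ : IsTorusQuotient Γ) {D : WeilClass Γ} {H : V → V → ℂ}
    (hc : D.HasChernForm H) {b c : V} (hb : b ∈ latt Γ) (hc' : c ∈ latt Γ) :
    ∃ n : ℤ, (Nat.card (Lin Γ) : ℝ) * (H b c).im = n := by
  obtain ⟨hH, F, hF, hFe⟩ := D.toLine_chern hc _ (D.cartier hΓ)
  obtain ⟨n, hn⟩ := im_int hH ⟨hF, hFe⟩ hb hc'
  refine ⟨n, ?_⟩
  rw [← hn]
  have h1 : ((Nat.card (Lin Γ) : ℕ) : ℂ) = ((Nat.card (Lin Γ) : ℝ) : ℂ) := by push_cast; rfl
  rw [h1, Complex.im_ofReal_mul]

/-- A nonzero entire function of one variable does not decay like a gaussian. -/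
theorem no_decay {f : ℂ → ℂ} (hf : Differentiable ℂ f) {M c : ℝ} (hc : 0 < c)
    (h : ∀ z, ‖f z‖ ^ 2 ≤ M * Real.exp (-(c * ‖z‖ ^ 2))) (h0 : f 0 ≠ 0) : False := by
  have hM : 0 ≤ M := by
    have h1 := h 0
    have h2 : ‖f 0‖ ^ 2 ≥ 0 := by positivity
    simp only [norm_zero] at h1
    norm_num at h1
    exact h2.trans h1
  have hM' : ∀ z, ‖f z‖ ^ 2 ≤ M := by
    intro z
    refine (h z).trans ?_
    have h1 : Real.exp (-(c * ‖z‖ ^ 2)) ≤ 1 := by
      rw [Real.exp_le_one_iff]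
      have : 0 ≤ c * ‖z‖ ^ 2 := by positivity
      linarith
    nlinarith
  have hb : Bornology.IsBounded (Set.range f) := by
    rw [isBounded_iff_forall_norm_le]
    refine ⟨M + 1, ?_⟩
    rintro _ ⟨z, rfl⟩
    have h1 := hM' z
    nlinarith [norm_nonneg (f z), sq_nonneg (‖f z‖ - 1)]
  have hpos : 0 < ‖f 0‖ ^ 2 := by positivity
  set a := ‖f 0‖ ^ 2 with ha
  -- choose `z` with `c * z ^ 2 > M / a`
  set r := Real.sqrt (M / a / c) with hr
  have hr2 : r ^ 2 = M / a / c := Real.sq_sqrt (by positivity)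
  have h1 := h (r : ℂ)
  rw [hf.apply_eq_apply_of_bounded hb (r : ℂ) 0, ← ha] at h1
  have h2 : ‖(r : ℂ)‖ ^ 2 = M / a / c := by
    rw [Complex.norm_real, Real.norm_eq_abs, sq_abs, hr2]
  rw [h2] at h1
  have h3 : c * (M / a / c) = M / a := by field_simp
  rw [h3] at h1
  have h4 : Real.exp (-(M / a)) * (1 + M / a) ≤ 1 := by
    have h5 : 1 + M / a ≤ Real.exp (M / a) := by
      have := Real.add_one_le_exp (M / a)
      linarith
    calc Real.exp (-(M / a)) * (1 + M / a) ≤ Real.exp (-(M / a)) * Real.exp (M / a) :=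
          mul_le_mul_of_nonneg_left h5 (Real.exp_pos _).le
      _ = 1 := by rw [← Real.exp_add, neg_add_cancel, Real.exp_zero]
  have h6 : a * (1 + M / a) ≤ M := by
    calc a * (1 + M / a) ≤ M * Real.exp (-(M / a)) * (1 + M / a) :=
          mul_le_mul_of_nonneg_right h1 (by positivity)
      _ = M * (Real.exp (-(M / a)) * (1 + M / a)) := by ring
      _ ≤ M * 1 := mul_le_mul_of_nonneg_left h4 hM
      _ = M := mul_one M
  have h7 : a * (1 + M / a) = a + M := by field_simp
  linarith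

/-- If the function `ρ`, a section of the dual of `K` for the translations in `Γ`, has no zeros on a translate
of a subspace spanned by lattice vectors, then the Chern form of `K` vanishes on this subspace. -/
theorem zero_of_unit (K : WeilClass Γ) {H : V → V → ℂ} (hc : K.HasChernForm H) {ρ : V → ℂ}
    (hρ : Differentiable ℂ ρ)
    (heq : ∀ (b : V) (hb : b ∈ latt Γ) (v : V), ρ v = K.e (tr b hb) v * ρ (b + v))
    (W : Submodule ℂ V) (hW : ∀ x ∈ W, x ∈ Submodule.span ℝ {b | b ∈ latt Γ ∧ b ∈ W})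
    (v₀ : V) (hne : ∀ x ∈ W, ρ (v₀ + x) ≠ 0) {x : V} (hx : x ∈ W) : (H x x).re = 0 := by
  obtain ⟨hH, F, hF, hFe⟩ := hc
  let G : V → ℝ := fun v => ‖ρ v‖ ^ 2 * Real.exp (Real.pi * (H v v).re + 2 * (F v).re)
  have hG : ∀ b ∈ latt Γ, ∀ v, G (b + v) = G v := by
    intro b hb v
    simp only [G]
    rw [heq b hb v, norm_mul, mul_pow, hFe, tr_apply]
    rw [mul_right_comm, ← Real.exp_add, mul_comm]
    congr 2
    ring
  have hGc : Continuous G := by
    have h1 := h_cont hH
    have h2 := hF.continuous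
    have h3 := hρ.continuous
    fun_prop
  let SK : AddSubgroup W := (latt Γ).comap W.subtype.toAddMonoidHom
  have hmap : (Submodule.span ℝ (SK : Set W)).map (W.subtype.restrictScalars ℝ)
      = Submodule.span ℝ {b | b ∈ latt Γ ∧ b ∈ W} := by
    rw [Submodule.map_span]
    congr 1
    ext x
    constructor
    · rintro ⟨y, hy, rfl⟩
      exact ⟨hy, y.2⟩
    · rintro ⟨hx, hx0⟩
      exact ⟨⟨x, hx0⟩, hx, rfl⟩
  have hspan : Submodule.span ℝ (SK : Set W) = ⊤ := by
    rw [eq_top_iff]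
    rintro ⟨x, hx⟩ -
    have h1 := hW x hx
    rw [← hmap] at h1
    obtain ⟨y, hy, hyx⟩ := h1
    have h2 : y = ⟨x, hx⟩ := Subtype.ext hyx
    rwa [← h2]
  have : ProperSpace W := FiniteDimensional.proper ℂ W
  obtain ⟨C, hC⟩ := cobounded SK hspan
  let g : W → ℝ := fun x => G (v₀ + x)
  have hgc : Continuous g := hGc.comp (continuous_const.add continuous_subtype_val)
  have hgpos : ∀ x, 0 < g x := by
    intro x
    have h1 : ‖ρ (v₀ + x)‖ ^ 2 > 0 := by
      have := norm_pos_iff.2 (hne x x.2)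
      positivity
    exact mul_pos h1 (Real.exp_pos _)
  have hgper : ∀ b ∈ SK, ∀ x, g (b + x) = g x := by
    intro b hb x
    have h1 := hG b hb (v₀ + x)
    simp only [g]
    rw [Submodule.coe_add, add_left_comm]
    exact h1
  have hcpt : IsCompact (Metric.closedBall (0 : W) C) := isCompact_closedBall _ _
  have hnon : (Metric.closedBall (0 : W) C).Nonempty := by
    obtain ⟨b, -, hbC⟩ := hC 0
    exact ⟨b + 0, by rwa [mem_closedBall_zero_iff]⟩
  obtain ⟨x₁, -, hx₁⟩ := hcpt.exists_isMinOn hnon hgc.continuousOn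
  obtain ⟨x₂, -, hx₂⟩ := hcpt.exists_isMaxOn hnon hgc.continuousOn
  have hmin : ∀ y, g x₁ ≤ g y := by
    intro y
    obtain ⟨b, hb, hbC⟩ := hC y
    rw [← hgper b hb y]
    exact hx₁ (by rwa [mem_closedBall_zero_iff])
  have hmax : ∀ y, g y ≤ g x₂ := by
    intro y
    obtain ⟨b, hb, hbC⟩ := hC y
    rw [← hgper b hb y]
    exact hx₂ (by rwa [mem_closedBall_zero_iff])
  let f : ℂ → ℂ := fun z => ρ (v₀ + z • x) * Complex.exp (F (v₀ + z • x))
    * Complex.exp (Real.pi * z * H x v₀)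
  have hline : Differentiable ℂ fun z : ℂ => v₀ + z • x :=
    (differentiable_id.smul_const x).const_add v₀
  have hfd : Differentiable ℂ f := by
    refine ((hρ.comp hline).mul (hF.comp hline).cexp).mul ?_
    exact ((differentiable_id.const_mul (Real.pi : ℂ)).mul_const _).cexp
  have hfn : ∀ z, ‖f z‖ ^ 2 = g (z • ⟨x, hx⟩) *
      Real.exp (-(Real.pi * (H v₀ v₀).re)) * Real.exp (-(Real.pi * (H x x).re * ‖z‖ ^ 2)) := by
    intro z
    simp only [f, g, G]
    have h0 : ((z • (⟨x, hx⟩ : W) : W) : V) = z • x := rfl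
    rw [h0, norm_mul, norm_mul, mul_pow, mul_pow, Complex.norm_exp, Complex.norm_exp,
      ← Real.exp_nat_mul, ← Real.exp_nat_mul, h_diag_add hH, h_diag_smul hH, mul_assoc, mul_assoc,
      mul_assoc, ← Real.exp_add, ← Real.exp_add, mul_assoc, ← Real.exp_add]
    congr 2
    have h2 : ((Real.pi : ℂ) * (z * H x v₀)).re = Real.pi * (z * H x v₀).re := by
      rw [Complex.re_ofReal_mul]
    have h3 : (H v₀ (z • x)).re = (z * H x v₀).re := by
      rw [h_re_symm hH (z • x) v₀, hH.smul_left]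
    rw [h2, h3]
    push_cast
    ring
  have hf0 : ∀ z, f z ≠ 0 := fun z =>
    mul_ne_zero (mul_ne_zero (hne _ (W.smul_mem z hx)) (Complex.exp_ne_zero _))
      (Complex.exp_ne_zero _)
  rcases lt_trichotomy (H x x).re 0 with hlt | h | hgt
  · exfalso
    refine no_decay (f := fun z => (f z)⁻¹) (hfd.inv hf0)
      (M := (g x₁ * Real.exp (-(Real.pi * (H v₀ v₀).re)))⁻¹) (c := -(Real.pi * (H x x).re))
      ?_ ?_ (inv_ne_zero (hf0 0))
    · have := mul_neg_of_pos_of_neg Real.pi_pos hlt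
      linarith
    · intro z
      have h1 : 0 < g x₁ * Real.exp (-(Real.pi * (H v₀ v₀).re)) :=
        mul_pos (hgpos _) (Real.exp_pos _)
      have h2 : Real.exp (-(-(Real.pi * (H x x).re) * ‖z‖ ^ 2))
          = (Real.exp (-(Real.pi * (H x x).re * ‖z‖ ^ 2)))⁻¹ := by
        rw [← Real.exp_neg]
        congr 1
        ring
      rw [norm_inv, inv_pow, hfn z, h2, ← mul_inv]
      apply inv_anti₀ (mul_pos h1 (Real.exp_pos _))
      apply mul_le_mul_of_nonneg_right _ (Real.exp_pos _).le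
      exact mul_le_mul_of_nonneg_right (hmin _) (Real.exp_pos _).le
  · exact h
  · exfalso
    refine no_decay hfd
      (M := g x₂ * Real.exp (-(Real.pi * (H v₀ v₀).re))) (c := Real.pi * (H x x).re)
      (mul_pos Real.pi_pos hgt) ?_ (hf0 0)
    intro z
    rw [hfn z]
    apply mul_le_mul_of_nonneg_right _ (Real.exp_pos _).le
    exact mul_le_mul_of_nonneg_right (hmax _) (Real.exp_pos _).le

end Pool.Agent.J4.H20.RT
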