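import Pool.Agent.J4.H20.RT.Cls
import Pool.Agent.J4.H20.RT.Ker
import Pool.Agent.J4.H20.RT.Approx

/-!
# Abundance for real pairs on torus quotients
-/

set_option autoImplicit false

namespace Pool.Agent.J4.H20.RT

open Pool.Agent.W594.SYZ2 Pool.Agent.W594.SYZ2.TQ Pool.Agent.TH735.AQ Pool.Agent.R893.TQ
open Pool.Agent.R800.UA Pool.Agent.R800.UB

variable {V : Type*} [NormedAddCommGroup V] [NormedSpace ℂ V] [FiniteDimensional ℂ V]
  {Γ : Subgroup (V ≃ᵃ[ℂ] V)}

/-- An integral log canonical class which is nef is a multiple of the pullback of an ample line bundle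
under the fibration given by a linear map with the right kernel. -/
theorem pull_class {W : Type*} [NormedAddCommGroup W] [NormedSpace ℂ W] [FiniteDimensional ℂ W]
    (hΓ : IsTorusQuotient Γ) {D : WeilClass Γ} {H : V → V → ℂ}
    (hc : D.HasChernForm H) (hn : IsNefForm H) {ρ β : V → ℂ} {m : ℕ} (hρ : IsRamification Γ ρ)
    (hβ : Differentiable ℂ β) (hβ0 : ∃ v, β v ≠ 0) (hL : IsLogPluri D m ρ β)
    (π : V →ₗ[ℂ] W) (hπ : Function.Surjective π) (hker : ∀ v, π v = 0 ↔ ∀ w, H v w = 0) :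
    IsFibration Γ (Del Γ π) π ∧
      ∃ (A : LineBundle (Del Γ π)) (HA : W → W → ℂ) (P : WeilClass Γ) (a : ℝ), 0 < a ∧
        IsChernForm A HA ∧ IsPositiveForm HA ∧ IsPull P A π ∧ cls D = a • cls P ∧
        ∀ v w, H v w = (a : ℂ) * HA (π v) (π w) := by
  have := finite_Lin hΓ
  have hNpos : 0 < Nat.card (Lin Γ) := Nat.card_pos
  set N := Nat.card (Lin Γ) with hN
  have hcar := D.cartier hΓ
  have hLP : IsLogPluricanonical (D.toLine N hcar) (m * N) ρ (fun v => β v ^ N) := by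
    intro γ v
    have h1 := hL γ v
    change β ((γ : V ≃ᵃ[ℂ] V) v) ^ N * ρ v ^ (m * N) = D.e γ v ^ N
      * LinearMap.det ((γ : V ≃ᵃ[ℂ] V).linear : V →ₗ[ℂ] V) ^ (m * N) * β v ^ N
      * ρ ((γ : V ≃ᵃ[ℂ] V) v) ^ (m * N)
    rw [pow_mul, pow_mul, pow_mul, ← mul_pow, ← mul_pow, ← mul_pow, ← mul_pow, h1]
  obtain ⟨v₀, hv₀⟩ := hβ0
  have hHD := hc.1
  obtain ⟨hH, F, hF, hFe⟩ := D.toLine_chern hc N hcar
  have hn' := (nef_mul hNpos).2 hn
  have hroot := root_log hΓ hH ⟨hF, hFe⟩ hρ (hβ.pow N) ⟨v₀, pow_ne_zero _ hv₀⟩ hLP hn'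
  have hNc : (N : ℂ) ≠ 0 := Nat.cast_ne_zero.2 hNpos.ne'
  have S : Pool.Agent.TH735.AQ.Sit Γ (D.toLine N hcar) (fun v w => (N : ℂ) * H v w) F π hH N := by
    refine ⟨hΓ, ⟨hF, hFe⟩, hn', hπ, fun v => ?_, hNpos, hroot⟩
    rw [hker]
    exact ⟨fun h3 w => by beta_reduce; rw [h3 w, mul_zero],
      fun h3 w => (mul_eq_zero.1 (h3 w)).resolve_left hNc⟩
  refine ⟨S.isFibration, ?_⟩
  set j := Pool.Agent.TH735.AQ.ex Γ N with hj'
  have hj : 0 < j := S.ex_pos
  let h : V → ℂ := fun v => Complex.exp (-(j * F v))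
  have hh : Differentiable ℂ h := (hF.const_mul (j : ℂ)).neg.cexp
  have hne : ∀ v, h v ≠ 0 := fun v => Complex.exp_ne_zero _
  have heq : ∀ (γ : Γ) (δ : Del Γ π), (∀ v, (δ : W ≃ᵃ[ℂ] W) (π v) = π ((γ : V ≃ᵃ[ℂ] V) v)) →
      ∀ v, h ((γ : V ≃ᵃ[ℂ] V) v) * ((D.mult N).mult j).e γ v
        = (Pool.Agent.TH735.AQ.bun S).e δ (π v) * h v := by
    intro γ δ hγδ v
    rw [Pool.Agent.TH735.AQ.bun_e S γ δ hγδ v, tw, mul_pow, ← Complex.exp_nat_mul, ← hj']
    change Complex.exp (-(j * F ((γ : V ≃ᵃ[ℂ] V) v))) * (D.e γ v ^ N) ^ j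
      = (D.e γ v ^ N) ^ j * Complex.exp (j * (F v - F ((γ : V ≃ᵃ[ℂ] V) v))) * Complex.exp (-(j * F v))
    have h2 : Complex.exp (-(j * F ((γ : V ≃ᵃ[ℂ] V) v)))
        = Complex.exp (j * (F v - F ((γ : V ≃ᵃ[ℂ] V) v))) * Complex.exp (-(j * F v)) := by
      rw [← Complex.exp_add]
      congr 1
      ring
    rw [h2]
    ring
  let P : WeilClass Γ :=
    { e := fun γ v => h ((γ : V ≃ᵃ[ℂ] V) v) * ((D.mult N).mult j).e γ v * (h v)⁻¹
      holo := fun γ => by
        have h1 : Differentiable ℂ (fun v => (γ : V ≃ᵃ[ℂ] V) v) := by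
          have : (fun v => (γ : V ≃ᵃ[ℂ] V) v) = fun v =>
              LinearMap.toContinuousLinearMap ((γ : V ≃ᵃ[ℂ] V).linear : V →ₗ[ℂ] V) v
                + (γ : V ≃ᵃ[ℂ] V) 0 := by
            funext v
            exact act _ v
          rw [this]
          exact (ContinuousLinearMap.differentiable _).add_const _
        exact ((hh.comp h1).mul (((D.mult N).mult j).holo γ)).mul (hh.inv hne)
      ne_zero := fun γ v => mul_ne_zero (mul_ne_zero (hne _) (((D.mult N).mult j).ne_zero γ v))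
        (inv_ne_zero (hne v))
      mul := fun γ δ v => by
        have h1 : ((γ * δ : Γ) : V ≃ᵃ[ℂ] V) v = (γ : V ≃ᵃ[ℂ] V) ((δ : V ≃ᵃ[ℂ] V) v) := rfl
        rw [((D.mult N).mult j).mul, h1]
        have h2 := hne ((δ : V ≃ᵃ[ℂ] V) v)
        field_simp }
  have hPe : ∀ γ v, P.e γ v = h ((γ : V ≃ᵃ[ℂ] V) v) * ((D.mult N).mult j).e γ v * (h v)⁻¹ :=
    fun _ _ => rfl
  have hcls : cls P = (j : ℝ) • ((N : ℝ) • cls D) := by
    rw [← cls_mult, ← cls_mult]
    refine cls_iso hh hne fun γ v => ?_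
    rw [hPe]
    have h2 := hne v
    field_simp
  refine ⟨Pool.Agent.TH735.AQ.bun S, Pool.Agent.TH735.AQ.HA Γ (fun v w => (N : ℂ) * H v w) π N, P,
    ((j : ℝ) * N)⁻¹, ?_, Pool.Agent.TH735.AQ.HA_chern S, Pool.Agent.TH735.AQ.HA_pos S, ?_, ?_, ?_⟩
  · have h1 : (0 : ℝ) < N := by exact_mod_cast hNpos
    have h2 : (0 : ℝ) < j := by exact_mod_cast hj
    positivity
  · intro γ δ hγδ v
    rw [hPe, mul_inv_eq_iff_eq_mul₀ (hne v)]
    exact heq γ δ hγδ v
  · have h1 : (N : ℝ) ≠ 0 := by exact_mod_cast hNpos.ne'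
    have h2 : (j : ℝ) ≠ 0 := by exact_mod_cast hj.ne'
    rw [hcls, smul_smul, smul_smul, mul_assoc, inv_mul_cancel₀ (mul_ne_zero h2 h1), one_smul]
  · intro v w
    have hjc : (j : ℂ) ≠ 0 := Nat.cast_ne_zero.2 hj.ne'
    have h1 : ∀ v, sec π (π v) - v ∈ ker hHD := by
      intro v w
      refine (hker _).1 ?_ w
      rw [map_sub, sec_spec hπ, sub_self]
    have h2 : H (sec π (π v)) (sec π (π w)) = H v w := by
      have h3 : H (sec π (π v)) (sec π (π w)) = H v (sec π (π w)) := by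
        rw [← sub_eq_zero, ← h_sub_left hHD]
        exact h1 v _
      have h4 : H v (sec π (π w)) = H v w := by
        have h5 : sec π (π w) = w + (sec π (π w) - w) := by abel
        rw [h5, h_add_right hHD, h_ker_right hHD (h1 w), add_zero]
      rw [h3, h4]
    simp only [Pool.Agent.TH735.AQ.HA]
    rw [h2, ← hj']
    push_cast
    field_simp

/-- Abundance for real pairs on torus quotients. -/
theorem abundance_real {W : Type*} [NormedAddCommGroup W] [NormedSpace ℂ W] [FiniteDimensional ℂ W]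
    (hΓ : IsTorusQuotient Γ) {ρ : V → ℂ} (hρ : IsRamification Γ ρ)
    {K : WeilClass Γ} (hK : IsCanonical K ρ) {HK : V → V → ℂ} (hcK : K.HasChernForm HK)
    {k : ℕ} {B : Fin k → WeilClass Γ} {β : Fin k → V → ℂ} (hβ : ∀ i, (B i).IsSection (β i))
    (hβ0 : ∀ i, ∃ v, β i v ≠ 0) {HB : Fin k → V → V → ℂ}
    (hcB : ∀ i, (B i).HasChernForm (HB i)) {b : Fin k → ℝ} (hb : ∀ i, 0 ≤ b i)
    (hn : IsNefForm fun v w => HK v w + ∑ i, (b i : ℂ) * HB i v w)
    (π : V →ₗ[ℂ] W) (hπs : Function.Surjective π)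
    (hπ : ∀ v, π v = 0 ↔ ∀ w, HK v w + ∑ i, (b i : ℂ) * HB i v w = 0) :
    IsFibration Γ (Del Γ π) π ∧
      IsAmplePullback (cls K + ∑ i, b i • cls (B i))
        (fun v w => HK v w + ∑ i, (b i : ℂ) * HB i v w) (Del Γ π) π := by
  classical
  have := finite_Lin hΓ
  have hNpos : 0 < Nat.card (Lin Γ) := Nat.card_pos
  have hnB : ∀ i, IsNefForm (HB i) := fun i =>
    nef_of_eff hΓ (hcB i) (j := 1) le_rfl
      ⟨(hβ i).holo, fun γ v => by rw [pow_one]; exact (hβ i).eq γ v⟩ (hβ0 i)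
  let D : Option (Fin k) → WeilClass Γ := fun o => o.elim K B
  let G : Option (Fin k) → V → V → ℂ := fun o => o.elim HK HB
  let bt : Option (Fin k) → ℝ := fun o => o.elim 1 b
  have hcD : ∀ o, (D o).HasChernForm (G o) := by
    rintro (_ | i)
    · exact hcK
    · exact hcB i
  have hG : ∀ o, IsHermitian (G o) := fun o => (hcD o).1
  have hsum : sumH G bt = fun v w => HK v w + ∑ i, (b i : ℂ) * HB i v w := by
    funext v w
    simp only [sumH]
    rw [Fintype.sum_option]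
    simp [G, bt]
  have hbt : ∀ o, 0 ≤ bt o := by
    rintro (_ | i)
    · exact zero_le_one
    · exact hb i
  rw [← hsum] at hn
  have hH := sumH_herm hG bt
  -- the kernel is spanned by lattice vectors
  have hrat : ∀ x, (∀ w, sumH G bt x w = 0) →
      x ∈ Submodule.span ℝ {c | c ∈ latt Γ ∧ ∀ w, sumH G bt c w = 0} := by
    intro x hx
    have hH' : IsHermitian fun v w => HK v w + ∑ i, (b i : ℂ) * HB i v w := by
      rw [← hsum]
      exact hH
    have h1 := ker_rat hΓ hρ hK hcK hcB hnB hb hH' (x := x) (by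
      intro w
      have h2 := hx w
      rw [hsum] at h2
      exact h2)
    refine Submodule.span_mono ?_ h1
    rintro c ⟨hc, hc'⟩
    refine ⟨hc, fun w => ?_⟩
    rw [hsum]
    exact hc' w
  have hπk : ∀ v, π v = 0 ↔ ∀ w, sumH G bt v w = 0 := by
    intro v
    rw [hπ, hsum]
  -- rational approximations
  obtain ⟨U, hU, hbU, hUp⟩ := pos_near hG bt hn
  let U' : Set (Option (Fin k) → ℝ) := U ∩ ⋂ o, {x | 0 < bt o → 0 < x o}
  have hU' : IsOpen U' := by
    refine hU.inter (isOpen_iInter_of_finite fun o => ?_)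
    by_cases h : 0 < bt o
    · have h1 : {x : Option (Fin k) → ℝ | 0 < bt o → 0 < x o} = {x | 0 < x o} := by
        ext x
        exact ⟨fun h2 => h2 h, fun h2 _ => h2⟩
      rw [h1]
      exact isOpen_lt continuous_const (continuous_apply o)
    · have h1 : {x : Option (Fin k) → ℝ | 0 < bt o → 0 < x o} = Set.univ := by
        ext x
        exact ⟨fun _ => trivial, fun _ h2 => absurd h2 h⟩
      rw [h1]
      exact isOpen_univ
  have hbU' : bt ∈ U' := ⟨hbU, Set.mem_iInter.2 fun o h => h⟩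
  obtain ⟨r, c, z, hr, hc, hsumc, hz⟩ := approx bt hU' hbU'
  have hz0 : ∀ s o, 0 ≤ z s o := by
    intro s o
    obtain ⟨⟨t, ht, htU⟩, hrel⟩ := hz s
    rcases (hbt o).lt_or_eq with h | h
    · have h1 : 0 < t * (z s o : ℝ) := Set.mem_iInter.1 htU.2 o h
      have h2 : 0 < (z s o : ℝ) := (pos_iff_pos_of_mul_pos h1).1 ht
      exact_mod_cast h2.le
    · have h1 := hrel (Pi.single o 1) (by
        rw [Finset.sum_eq_single o]
        · rw [← h, mul_zero]
        · intro o' _ ho'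
          rw [Pi.single_eq_of_ne ho', Int.cast_zero, zero_mul]
        · intro h; exact absurd (Finset.mem_univ o) h)
      rw [Finset.sum_eq_single o] at h1
      · rw [Pi.single_eq_same, one_mul] at h1
        exact h1.ge
      · intro o' _ ho'
        rw [Pi.single_eq_of_ne ho', zero_mul]
      · intro h; exact absurd (Finset.mem_univ o) h
  let m : Fin r → Option (Fin k) → ℕ := fun s o => (z s o).toNat
  have hm : ∀ s o, (m s o : ℝ) = z s o := by
    intro s o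
    have h1 : ((m s o : ℕ) : ℤ) = z s o := Int.toNat_of_nonneg (hz0 s o)
    exact_mod_cast congrArg (Int.cast : ℤ → ℝ) h1
  have hmz : ∀ s, (fun o => (m s o : ℝ)) = fun o => (z s o : ℝ) := fun s => funext (hm s)
  have hN : ∀ o, ∀ b ∈ latt Γ, ∀ c ∈ latt Γ, ∃ n : ℤ, (Nat.card (Lin Γ) : ℝ) * (G o b c).im = n :=
    fun o b hb c hc => weil_int hΓ (hcD o) hb hc
  -- each of them
  have hs : ∀ s, IsNefForm (sumH G fun o => (m s o : ℝ)) ∧
      ∀ v, π v = 0 ↔ ∀ w, sumH G (fun o => (m s o : ℝ)) v w = 0 := by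
    intro s
    obtain ⟨⟨t, ht, htU⟩, hrel⟩ := hz s
    rw [hmz s]
    have h1 : ∀ x, (∀ w, sumH G bt x w = 0) → ∀ w, sumH G (fun o => (z s o : ℝ)) x w = 0 :=
      fun x hx w => ker_le hΓ hG hNpos hN bt (z s) hrel hrat hx w
    obtain ⟨h2, h3⟩ := hUp _ htU.1 (fun x hx w => by
      rw [sumH_smul, h1 x hx w, mul_zero])
    constructor
    · intro v
      have h4 := h2 v
      rw [sumH_smul, Complex.re_ofReal_mul] at h4
      exact nonneg_of_mul_nonneg_right h4 ht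
    · intro v
      rw [hπk]
      refine ⟨h1 v, fun h4 => h3 v fun w => ?_⟩
      rw [sumH_smul, h4 w, mul_zero]
  let β' : Fin r → V → ℂ := fun s v => ∏ i, β i v ^ m s (some i)
  have hβ' : ∀ s, Differentiable ℂ (β' s) := fun s =>
    diff_prod Finset.univ (fun i v => β i v ^ m s (some i)) fun i => (hβ i).holo.pow _
  have hβ0' : ∀ s, ∃ v, β' s v ≠ 0 := by
    intro s
    have key : ∀ t : Finset (Fin k), ∃ v, ∏ i ∈ t, β i v ^ m s (some i) ≠ 0 := by
      intro t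
      induction t using Finset.induction_on with
      | empty => exact ⟨0, by simp⟩
      | insert j t hj ih =>
        obtain ⟨v, hv⟩ := hβ0 j
        obtain ⟨u, hu1, hu2⟩ := exists_common ((hβ j).holo.pow (m s (some j)))
          (diff_prod t (fun i v => β i v ^ m s (some i)) fun i => (hβ i).holo.pow _)
          ⟨v, pow_ne_zero _ hv⟩ ih
        refine ⟨u, ?_⟩
        rw [Finset.prod_insert hj]
        exact mul_ne_zero hu1 hu2
    exact key Finset.univ
  have hLP : ∀ s, IsLogPluri (comb D (m s) Finset.univ) (m s none) ρ (β' s) := by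
    intro s γ v
    change (∏ i, β i ((γ : V ≃ᵃ[ℂ] V) v) ^ m s (some i)) * ρ v ^ m s none =
      (∏ o, (D o).e γ v ^ m s o) * LinearMap.det ((γ : V ≃ᵃ[ℂ] V).linear : V →ₗ[ℂ] V) ^ m s none
        * (∏ i, β i v ^ m s (some i)) * ρ ((γ : V ≃ᵃ[ℂ] V) v) ^ m s none
    rw [Fintype.prod_option]
    have h1 : ∀ i, β i ((γ : V ≃ᵃ[ℂ] V) v) ^ m s (some i)
        = (D (some i)).e γ v ^ m s (some i) * β i v ^ m s (some i) := by
      intro i
      rw [(hβ i).eq γ v, mul_pow]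
      rfl
    have h2 : ρ v ^ m s none = (D none).e γ v ^ m s none
        * LinearMap.det ((γ : V ≃ᵃ[ℂ] V).linear : V →ₗ[ℂ] V) ^ m s none
        * ρ ((γ : V ≃ᵃ[ℂ] V) v) ^ m s none := by
      rw [← mul_pow, ← mul_pow]
      congr 1
      exact hK γ v
    rw [Finset.prod_congr rfl fun i _ => h1 i, Finset.prod_mul_distrib, h2]
    ring
  have hall := fun s => pull_class hΓ (chern_comb hcD (m s)) (hs s).1 hρ (hβ' s) (hβ0' s) (hLP s)
    π hπs (hs s).2
  choose hfib A HA P a ha hA1 hA2 hP hcls hHA using hall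
  refine ⟨hfib ⟨0, hr⟩, r, fun s => c s * a s, A, HA, P, hr, fun s =>
    ⟨mul_pos (hc s) (ha s), hA1 s, hA2 s, hP s⟩, ?_, ?_⟩
  · have h1 : cls K + ∑ i, b i • cls (B i) = ∑ o, bt o • cls (D o) := by
      rw [Fintype.sum_option]
      simp [D, bt]
    rw [h1]
    calc ∑ o, bt o • cls (D o) = ∑ o, ∑ s, (c s * (m s o : ℝ)) • cls (D o) := by
          refine Finset.sum_congr rfl fun o _ => ?_
          rw [hsumc o, Finset.sum_smul]
          exact Finset.sum_congr rfl fun s _ => by rw [hm]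
      _ = ∑ s, ∑ o, (c s * (m s o : ℝ)) • cls (D o) := Finset.sum_comm
      _ = ∑ s, (c s * a s) • cls (P s) := by
          refine Finset.sum_congr rfl fun s _ => ?_
          rw [mul_smul, ← hcls s, cls_comb, Finset.smul_sum]
          exact Finset.sum_congr rfl fun o _ => by rw [mul_smul]
  · intro v w
    have h1 : HK v w + ∑ i, (b i : ℂ) * HB i v w = sumH G bt v w := by rw [hsum]
    beta_reduce
    rw [h1]
    calc sumH G bt v w = ∑ o, ∑ s, (c s * (m s o : ℝ) : ℂ) * G o v w := by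
          refine Finset.sum_congr rfl fun o _ => ?_
          rw [hsumc o, Complex.ofReal_sum, Finset.sum_mul]
          exact Finset.sum_congr rfl fun s _ => by rw [← hm, Complex.ofReal_mul]
      _ = ∑ s, ∑ o, (c s * (m s o : ℝ) : ℂ) * G o v w := Finset.sum_comm
      _ = ∑ s, ((c s * a s : ℝ) : ℂ) * HA s (π v) (π w) := by
          refine Finset.sum_congr rfl fun s _ => ?_
          rw [Complex.ofReal_mul, mul_assoc, ← hHA s v w, sumH, Finset.mul_sum]
          exact Finset.sum_congr rfl fun o _ => by rw [mul_assoc]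

/-- Finiteness: there are finitely many fibrations for all boundaries supported on given divisors. -/
theorem finite_models (hΓ : IsTorusQuotient Γ) {ρ : V → ℂ} (hρ : IsRamification Γ ρ)
    {K : WeilClass Γ} (hK : IsCanonical K ρ) {HK : V → V → ℂ} (hcK : K.HasChernForm HK)
    {k : ℕ} {B : Fin k → WeilClass Γ} {β : Fin k → V → ℂ} (hβ : ∀ i, (B i).IsSection (β i))
    (hβ0 : ∀ i, ∃ v, β i v ≠ 0) {HB : Fin k → V → V → ℂ}
    (hcB : ∀ i, (B i).HasChernForm (HB i)) :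
    ∃ (N : ℕ) (n : Fin N → ℕ) (Δ : ∀ j, Subgroup ((Fin (n j) → ℂ) ≃ᵃ[ℂ] (Fin (n j) → ℂ)))
      (π : ∀ j, V →ₗ[ℂ] (Fin (n j) → ℂ)), (∀ j, IsFibration Γ (Δ j) (π j)) ∧
      ∀ b : Fin k → ℝ, (∀ i, 0 ≤ b i) →
        IsNefForm (fun v w => HK v w + ∑ i, (b i : ℂ) * HB i v w) →
          ∃ j, (∀ v, π j v = 0 ↔ ∀ w, HK v w + ∑ i, (b i : ℂ) * HB i v w = 0) ∧
            IsAmplePullback (cls K + ∑ i, b i • cls (B i))
              (fun v w => HK v w + ∑ i, (b i : ℂ) * HB i v w) (Δ j) (π j) := by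
  classical
  have := finite_Lin hΓ
  have hnB : ∀ i, IsNefForm (HB i) := fun i =>
    nef_of_eff hΓ (hcB i) (j := 1) le_rfl
      ⟨(hβ i).holo, fun γ v => by rw [pow_one]; exact (hβ i).eq γ v⟩ (hβ0 i)
  have herm : ∀ b : Fin k → ℝ, IsHermitian fun v w => HK v w + ∑ i, (b i : ℂ) * HB i v w := by
    intro b
    have h1 := sumH_herm (G := fun o : Option (Fin k) => o.elim HK HB) (by
      rintro (_ | i)
      · exact hcK.1
      · exact (hcB i).1) (fun o => o.elim 1 b)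
    have h2 : sumH (fun o : Option (Fin k) => o.elim HK HB) (fun o => o.elim 1 b)
        = fun v w => HK v w + ∑ i, (b i : ℂ) * HB i v w := by
      funext v w
      simp only [sumH]
      rw [Fintype.sum_option]
      simp
    rwa [h2] at h1
  let T : Set (Submodule ℂ V) := {κ | ∃ b : Fin k → ℝ, (∀ i, 0 ≤ b i) ∧
    IsNefForm (fun v w => HK v w + ∑ i, (b i : ℂ) * HB i v w) ∧ κ = ker (herm b)}
  have hT : T.Finite := by
    refine (Set.finite_range fun p : Finset (Fin k) × Subgroup (Lin Γ) =>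
      ((fixedSpace (Nref Γ) ⊓ commonKer (fun i => (hcB i).1) p.1) ⊔
        ⨆ g : p.2, LinearMap.range ((g.1.1 : V →ₗ[ℂ] V) - LinearMap.id))).subset ?_
    rintro κ ⟨b, hb, -, rfl⟩
    obtain ⟨I, N, h⟩ := ker_struct hΓ hρ hK hcK hcB hnB hb (herm b)
    exact ⟨(I, N), h.symm⟩
  have : Fintype T := hT.fintype
  let f := Fintype.equivFin T
  let κ : Fin (Fintype.card T) → Submodule ℂ V := fun j => (f.symm j).1
  let n : Fin (Fintype.card T) → ℕ := fun j => Module.finrank ℂ (V ⧸ κ j)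
  let e : ∀ j, (V ⧸ κ j) ≃ₗ[ℂ] (Fin (n j) → ℂ) := fun j => (Module.finBasis ℂ (V ⧸ κ j)).equivFun
  let π : ∀ j, V →ₗ[ℂ] (Fin (n j) → ℂ) := fun j =>
    ((e j : (V ⧸ κ j) →ₗ[ℂ] (Fin (n j) → ℂ))) ∘ₗ (κ j).mkQ
  have hπs : ∀ j, Function.Surjective (π j) := fun j => (e j).surjective.comp (κ j).mkQ_surjective
  have hπk : ∀ j v, π j v = 0 ↔ v ∈ κ j := by
    intro j v
    change e j ((κ j).mkQ v) = 0 ↔ v ∈ κ j
    rw [LinearEquiv.map_eq_zero_iff, Submodule.mkQ_apply, Submodule.Quotient.mk_eq_zero]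
  have key : ∀ j, ∀ b : Fin k → ℝ, (∀ i, 0 ≤ b i) →
      IsNefForm (fun v w => HK v w + ∑ i, (b i : ℂ) * HB i v w) → κ j = ker (herm b) →
        (∀ v, π j v = 0 ↔ ∀ w, HK v w + ∑ i, (b i : ℂ) * HB i v w = 0) ∧
        IsFibration Γ (Del Γ (π j)) (π j) ∧
        IsAmplePullback (cls K + ∑ i, b i • cls (B i))
          (fun v w => HK v w + ∑ i, (b i : ℂ) * HB i v w) (Del Γ (π j)) (π j) := by
    intro j b hb hn hκ
    have h1 : ∀ v, π j v = 0 ↔ ∀ w, HK v w + ∑ i, (b i : ℂ) * HB i v w = 0 := by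
      intro v
      rw [hπk, hκ]
      exact Iff.rfl
    exact ⟨h1, abundance_real hΓ hρ hK hcK hβ hβ0 hcB hb hn (π j) (hπs j) h1⟩
  refine ⟨Fintype.card T, n, fun j => Del Γ (π j), π, fun j => ?_, fun b hb hn => ?_⟩
  · obtain ⟨b, hb, hn, hκ⟩ := (f.symm j).2
    exact (key j b hb hn hκ).2.1
  · have hmem : ker (herm b) ∈ T := ⟨b, hb, hn, rfl⟩
    refine ⟨f ⟨_, hmem⟩, ?_⟩
    have hκ : κ (f ⟨_, hmem⟩) = ker (herm b) := by
      change (f.symm (f ⟨_, hmem⟩)).1 = _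
      rw [Equiv.symm_apply_apply]
    obtain ⟨h1, -, h2⟩ := key _ b hb hn hκ
    exact ⟨h1, h2⟩

omit [FiniteDimensional ℂ V] in
/-- The Chern form of the pullback of an ample real divisor is semipositive. -/
theorem nef_of_pullback {W : Type*} [NormedAddCommGroup W] [NormedSpace ℂ W] {x : RealClass Γ}
    {H : V → V → ℂ} {Δ : Subgroup (W ≃ᵃ[ℂ] W)} {π : V →ₗ[ℂ] W} (h : IsAmplePullback x H Δ π) :
    IsNefForm H := by
  obtain ⟨r, a, A, HA, P, -, hA, -, hH⟩ := h
  intro v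
  rw [hH, Complex.re_sum]
  refine Finset.sum_nonneg fun j _ => ?_
  rw [Complex.re_ofReal_mul]
  refine mul_nonneg (hA j).1.le ?_
  by_cases h0 : π v = 0
  · rw [h0, h_zero_left (hA j).2.1.1, Complex.zero_re]
  · exact ((hA j).2.2.1 _ h0).le

end Pool.Agent.J4.H20.RT
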