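import Pool.Agent.J4.H20.RT.Liou

/-!
# Combinations of hermitian forms
-/

set_option autoImplicit false

namespace Pool.Agent.J4.H20.RT

open Pool.Agent.W594.SYZ2 Pool.Agent.W594.SYZ2.TQ Pool.Agent.TH735.AQ Pool.Agent.R893.TQ
open Pool.Agent.R800.UA Pool.Agent.R800.UB

section

variable {V : Type*} [NormedAddCommGroup V] [NormedSpace ℂ V] {Γ : Subgroup (V ≃ᵃ[ℂ] V)}

/-- A real combination of forms. -/
noncomputable def sumH {ι : Type} [Fintype ι] (G : ι → V → V → ℂ) (c : ι → ℝ) (v w : V) : ℂ :=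
  ∑ i, (c i : ℂ) * G i v w

theorem sumH_herm {ι : Type} [Fintype ι] {G : ι → V → V → ℂ} (hG : ∀ i, IsHermitian (G i))
    (c : ι → ℝ) : IsHermitian (sumH G c) := by
  refine ⟨fun u v w => ?_, fun a v w => ?_, fun v w => ?_⟩
  · simp only [sumH]
    rw [← Finset.sum_add_distrib]
    exact Finset.sum_congr rfl fun i _ => by rw [(hG i).add_left, mul_add]
  · simp only [sumH]
    rw [Finset.mul_sum]
    exact Finset.sum_congr rfl fun i _ => by rw [(hG i).smul_left]; ring
  · simp only [sumH]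
    rw [map_sum]
    exact Finset.sum_congr rfl fun i _ => by rw [map_mul, Complex.conj_ofReal, ← (hG i).symm]

theorem sumH_re {ι : Type} [Fintype ι] (G : ι → V → V → ℂ) (c : ι → ℝ) (v w : V) :
    (sumH G c v w).re = ∑ i, c i * (G i v w).re := by
  simp only [sumH, Complex.re_sum, Complex.re_ofReal_mul]

theorem sumH_im {ι : Type} [Fintype ι] (G : ι → V → V → ℂ) (c : ι → ℝ) (v w : V) :
    (sumH G c v w).im = ∑ i, c i * (G i v w).im := by
  simp only [sumH, Complex.im_sum, Complex.im_ofReal_mul]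

theorem sumH_smul {ι : Type} [Fintype ι] (G : ι → V → V → ℂ) (t : ℝ) (c : ι → ℝ) (v w : V) :
    sumH G (fun i => t * c i) v w = (t : ℂ) * sumH G c v w := by
  simp only [sumH]
  rw [Finset.mul_sum]
  exact Finset.sum_congr rfl fun i _ => by push_cast; ring

end

variable {V : Type*} [NormedAddCommGroup V] [NormedSpace ℂ V] [FiniteDimensional ℂ V]
  {Γ : Subgroup (V ≃ᵃ[ℂ] V)}

/-- Near combinations with the same or a larger kernel are semipositive with the same kernel. -/
theorem pos_near {ι : Type} [Fintype ι] {G : ι → V → V → ℂ} (hG : ∀ i, IsHermitian (G i))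
    (c₀ : ι → ℝ) (hn : IsNefForm (sumH G c₀)) :
    ∃ U : Set (ι → ℝ), IsOpen U ∧ c₀ ∈ U ∧ ∀ c ∈ U,
      (∀ x, (∀ w, sumH G c₀ x w = 0) → ∀ w, sumH G c x w = 0) →
        IsNefForm (sumH G c) ∧ ∀ x, (∀ w, sumH G c x w = 0) → ∀ w, sumH G c₀ x w = 0 := by
  have hH := sumH_herm hG c₀
  obtain ⟨C, hC⟩ := Submodule.exists_isCompl (ker hH)
  have : ProperSpace V := FiniteDimensional.proper ℂ V
  let S : Set V := {v | v ∈ C ∧ ‖v‖ = 1}
  have hS : IsCompact S := by
    have h1 : IsCompact (Metric.sphere (0 : V) 1) := isCompact_sphere 0 1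
    refine h1.of_isClosed_subset ?_ ?_
    · have h2 : IsClosed (C : Set V) := Submodule.closed_of_finiteDimensional C
      have h3 : S = (C : Set V) ∩ Metric.sphere (0 : V) 1 := by
        ext v
        simp [S]
      rw [h3]
      exact h2.inter h1.isClosed
    · intro v hv
      rw [mem_sphere_zero_iff_norm]
      exact hv.2
  have hdec : ∀ v : V, ∃ a ∈ ker hH, ∃ d ∈ C, v = a + d := by
    intro v
    have h1 : v ∈ ker hH ⊔ C := by rw [hC.sup_eq_top]; trivial
    obtain ⟨a, ha, d, hd, h⟩ := Submodule.mem_sup.1 h1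
    exact ⟨a, ha, d, hd, h.symm⟩
  have hpos : ∀ v ∈ S, 0 < (sumH G c₀ v v).re := by
    intro v hv
    apply lt_of_le_of_ne (hn v)
    intro h
    have h1 : v ∈ ker hH := fun w => h_isotropic hH hn v h.symm w
    have h2 : v ∈ ker hH ⊓ C := ⟨h1, hv.1⟩
    rw [hC.inf_eq_bot, Submodule.mem_bot] at h2
    have h3 := hv.2
    rw [h2, norm_zero] at h3
    exact zero_ne_one h3
  let n : Set ((ι → ℝ) × V) := {p | 0 < (sumH G p.1 p.2 p.2).re}
  have hcont : Continuous fun p : (ι → ℝ) × V => (sumH G p.1 p.2 p.2).re := by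
    simp only [sumH_re]
    refine continuous_finsetSum _ fun i _ => ?_
    exact ((continuous_apply i).comp continuous_fst).mul ((h_cont (hG i)).comp continuous_snd)
  have hnop : IsOpen n := isOpen_lt continuous_const hcont
  obtain ⟨U, W, hU, -, hcU, hSW, hUW⟩ := generalized_tube_lemma (s := {c₀}) isCompact_singleton hS hnop (by
    rintro ⟨c, v⟩ ⟨hc, hv⟩
    change 0 < (sumH G c v v).re
    rw [Set.mem_singleton_iff] at hc
    change c = c₀ at hc
    rw [hc]
    exact hpos v hv)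
  refine ⟨U, hU, hcU rfl, fun c hc hker => ?_⟩
  have hHc := sumH_herm hG c
  have hpos' : ∀ d ∈ C, d ≠ 0 → 0 < (sumH G c d d).re := by
    intro d hd hd0
    have hd1 : 0 < ‖d‖ := norm_pos_iff.2 hd0
    have hu : ((‖d‖⁻¹ : ℝ) : ℂ) • d ∈ S := by
      refine ⟨C.smul_mem _ hd, ?_⟩
      rw [norm_smul, Complex.norm_real, norm_inv, norm_norm, inv_mul_cancel₀ hd1.ne']
    have h1 : 0 < (sumH G c (((‖d‖⁻¹ : ℝ) : ℂ) • d) (((‖d‖⁻¹ : ℝ) : ℂ) • d)).re :=
      hUW (Set.mk_mem_prod hc (hSW hu))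
    rw [h_diag_smul hHc] at h1
    have h2 : 0 < ‖((‖d‖⁻¹ : ℝ) : ℂ)‖ ^ 2 := by
      rw [Complex.norm_real, norm_inv, norm_norm]
      positivity
    exact (pos_iff_pos_of_mul_pos h1).1 h2
  have hdiag : ∀ a ∈ ker hH, ∀ d, (sumH G c (a + d) (a + d)).re = (sumH G c d d).re := by
    intro a ha d
    refine h_diag_congr hHc ?_
    rw [add_sub_cancel_right]
    exact hker a ha
  constructor
  · intro v
    obtain ⟨a, ha, d, hd, rfl⟩ := hdec v
    rw [hdiag a ha]
    by_cases h0 : d = 0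
    · rw [h0, h_zero_left hHc, Complex.zero_re]
    · exact (hpos' d hd h0).le
  · intro x hx
    obtain ⟨a, ha, d, hd, rfl⟩ := hdec x
    have h1 : d = 0 := by
      by_contra h0
      have h2 := hpos' d hd h0
      rw [← hdiag a ha, hx, Complex.zero_re] at h2
      exact lt_irrefl _ h2
    rw [h1, add_zero]
    exact ha

/-- Combinations which satisfy all rational relations of `b` have the kernel of the combination given by
`b`, if this is spanned by lattice vectors. -/
theorem ker_le (hΓ : IsTorusQuotient Γ) {ι : Type} [Fintype ι] {G : ι → V → V → ℂ}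
    (hG : ∀ i, IsHermitian (G i)) {N : ℕ} (hN : 0 < N)
    (hI : ∀ i, ∀ b ∈ latt Γ, ∀ c ∈ latt Γ, ∃ n : ℤ, (N : ℝ) * (G i b c).im = n)
    (b : ι → ℝ) (n : ι → ℤ) (hbn : ∀ z : ι → ℤ, ∑ i, (z i : ℝ) * b i = 0 → ∑ i, z i * n i = 0)
    (hrat : ∀ x, (∀ w, sumH G b x w = 0) →
      x ∈ Submodule.span ℝ {c | c ∈ latt Γ ∧ ∀ w, sumH G b c w = 0})
    {x : V} (hx : ∀ w, sumH G b x w = 0) (w : V) : sumH G (fun i => (n i : ℝ)) x w = 0 := by
  have hHn := sumH_herm hG fun i => (n i : ℝ)
  have h1 : Submodule.span ℝ {c | c ∈ latt Γ ∧ ∀ w, sumH G b c w = 0}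
      ≤ (ker hHn).restrictScalars ℝ := by
    rw [Submodule.span_le]
    rintro c ⟨hc, hcb⟩
    refine fun w => zero_of_im hHn hΓ.span_top ?_ w
    intro d hd
    choose z hz using fun i => hI i c hc d hd
    have h2 : ∑ i, (z i : ℝ) * b i = 0 := by
      have h3 := congrArg Complex.im (hcb d)
      rw [sumH_im, Complex.zero_im] at h3
      calc ∑ i, (z i : ℝ) * b i = N * ∑ i, b i * (G i c d).im := by
            rw [Finset.mul_sum]
            exact Finset.sum_congr rfl fun i _ => by rw [← hz i]; ring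
        _ = 0 := by rw [h3, mul_zero]
    have h3 := hbn z h2
    have h4 : (N : ℝ) * ∑ i, (n i : ℝ) * (G i c d).im = 0 := by
      calc (N : ℝ) * ∑ i, (n i : ℝ) * (G i c d).im = ∑ i, (z i : ℝ) * n i := by
            rw [Finset.mul_sum]
            exact Finset.sum_congr rfl fun i _ => by rw [← hz i]; ring
        _ = 0 := by exact_mod_cast h3
    rw [sumH_im]
    have h5 : (N : ℝ) ≠ 0 := by positivity
    exact (mul_eq_zero.1 h4).resolve_left h5
  exact h1 (hrat x hx) w

end Pool.Agent.J4.H20.RT
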