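import Pool.Agent.R800.UB.Log

/-!
# Subspaces spanned by lattice vectors
-/

set_option autoImplicit false

namespace Pool.Agent.J4.H20.RT

open Pool.Agent.W594.SYZ2 Pool.Agent.W594.SYZ2.TQ Pool.Agent.TH735.AQ Pool.Agent.R893.TQ
open Pool.Agent.R800.UA Pool.Agent.R800.UB

/-- The kernel of a linear map which maps a lattice into a discrete group is spanned by lattice
vectors. -/
theorem rat_ker {V W : Type*} [NormedAddCommGroup V] [NormedSpace ℝ V] [FiniteDimensional ℝ V]
    [NormedAddCommGroup W] [NormedSpace ℝ W] [FiniteDimensional ℝ W]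
    (S : AddSubgroup V) (hd : DiscreteTopology S) (hS : Submodule.span ℝ (S : Set V) = ⊤)
    (T : AddSubgroup W) (hdT : DiscreteTopology T) (φ : V →ₗ[ℝ] W) (hT : ∀ b ∈ S, φ b ∈ T) :
    Submodule.span ℝ {b | b ∈ S ∧ φ b = 0} = LinearMap.ker φ := by
  let φ' : V →ₗ[ℝ] LinearMap.range φ := φ.rangeRestrict
  let T' : AddSubgroup (LinearMap.range φ) := S.map φ'.toAddMonoidHom
  have hT' : DiscreteTopology T' := by
    have h1 : DiscreteTopology ((Subtype.val : LinearMap.range φ → W) ⁻¹' (T : Set W)) := by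
      have : DiscreteTopology (T : Set W) := hdT
      exact DiscreteTopology.preimage_of_continuous_injective (T : Set W) continuous_subtype_val
        Subtype.val_injective
    refine DiscreteTopology.of_subset (t := (T' : Set (LinearMap.range φ))) h1 ?_
    rintro _ ⟨b, hb, rfl⟩
    exact hT b hb
  have h := span_ker (V := V) (W := LinearMap.range φ) S hd hS T' hT' φ' φ.surjective_rangeRestrict
    (fun w => Iff.rfl)
  rw [LinearMap.ker_rangeRestrict] at h
  rw [← h]
  congr 1
  ext b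
  constructor
  · rintro ⟨h1, h2⟩
    exact ⟨h1, Subtype.ext h2⟩
  · rintro ⟨h1, h2⟩
    exact ⟨h1, congrArg Subtype.val h2⟩

/-- The integer valued functions. -/
def intFun (J : Type*) : AddSubgroup (J → ℝ) where
  carrier := {f | ∀ j, ∃ n : ℤ, f j = n}
  zero_mem' := fun j => ⟨0, by simp⟩
  add_mem' := by
    intro f g hf hg j
    obtain ⟨n, hn⟩ := hf j
    obtain ⟨m, hm⟩ := hg j
    exact ⟨n + m, by simp [hn, hm]⟩
  neg_mem' := by
    intro f hf j
    obtain ⟨n, hn⟩ := hf j
    exact ⟨-n, by simp [hn]⟩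

theorem discrete_intFun (J : Type*) [Finite J] : DiscreteTopology (intFun J) := by
  have h0 : ∀ f : intFun J, ∀ j, ∃ n : ℤ, f.1 j = n := fun f => f.2
  choose n hn using h0
  let F : intFun J → J → ℤ := fun f j => n f j
  have hF : Continuous F := by
    refine continuous_pi fun j => ?_
    rw [Int.isClosedEmbedding_coe_real.isEmbedding.continuous_iff]
    have h1 : (Int.cast : ℤ → ℝ) ∘ (fun f : intFun J => F f j) = fun f => f.1 j := by
      funext f
      exact (hn f j).symm
    rw [h1]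
    exact (continuous_apply j).comp continuous_subtype_val
  refine DiscreteTopology.of_continuous_injective hF ?_
  intro f g hfg
  apply Subtype.ext
  funext j
  rw [hn f j, hn g j]
  exact congrArg Int.cast (congrFun hfg j)

variable {V : Type*} [NormedAddCommGroup V] [NormedSpace ℂ V]
  {Γ : Subgroup (V ≃ᵃ[ℂ] V)}

/-- A vector is in the kernel if the imaginary parts of its products with a spanning set vanish. -/
theorem zero_of_im {H : V → V → ℂ} (hH : IsHermitian H) {t : Set V}
    (ht : Submodule.span ℝ t = ⊤) {x : V} (hx : ∀ y ∈ t, (H x y).im = 0) (w : V) : H x w = 0 := by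
  have h1 : ∀ u : V, (H x u).im = 0 := by
    intro u
    have hu : u ∈ Submodule.span ℝ t := by rw [ht]; trivial
    induction hu using Submodule.span_induction with
    | mem y hy => exact hx y hy
    | zero => rw [h_zero_right hH, Complex.zero_im]
    | add y z _ _ hy hz => rw [h_add_right hH, Complex.add_im, hy, hz, add_zero]
    | smul c y _ hy =>
      have h1 : c • y = (c : ℂ) • y := (Complex.coe_smul c y).symm
      rw [h1, h_smul_right hH, Complex.conj_ofReal, Complex.im_ofReal_mul, hy, mul_zero]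
  apply Complex.ext
  · have h2 := h1 (Complex.I • w)
    rw [h_smul_right hH] at h2
    simpa using h2
  · exact h1 w

variable [FiniteDimensional ℂ V]

/-- The common kernel of finitely many forms which are integral on the lattice is spanned by lattice
vectors. -/
theorem rat_forms (hΓ : IsTorusQuotient Γ) {ι : Type*} (s : Finset ι) (H : ι → V → V → ℂ)
    (hH : ∀ i, IsHermitian (H i)) {N : ℕ} (hN : 0 < N)
    (hI : ∀ i, ∀ b ∈ latt Γ, ∀ c ∈ latt Γ, ∃ n : ℤ, (N : ℝ) * (H i b c).im = n)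
    {x : V} (hx : ∀ i ∈ s, ∀ w, H i x w = 0) :
    x ∈ Submodule.span ℝ {b | b ∈ latt Γ ∧ ∀ i ∈ s, ∀ w, H i b w = 0} := by
  have : FiniteDimensional ℝ V := FiniteDimensional.complexToReal V
  obtain ⟨t, ht, hspan, hli⟩ := exists_linearIndependent ℝ (latt Γ : Set V)
  have : Finite t := hli.finite
  have : Fintype t := Fintype.ofFinite t
  have hspan' : Submodule.span ℝ t = ⊤ := by rw [hspan]; exact hΓ.span_top
  let J := {i // i ∈ s} × t
  let φ : V →ₗ[ℝ] (J → ℝ) :=
    { toFun := fun v j => (N : ℝ) * (H j.1 v j.2).im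
      map_add' := fun v w => by
        funext j
        simp only [Pi.add_apply]
        rw [(hH j.1).add_left, Complex.add_im, mul_add]
      map_smul' := fun c v => by
        funext j
        simp only [Pi.smul_apply, smul_eq_mul, RingHom.id_apply]
        have h1 : c • v = (c : ℂ) • v := (Complex.coe_smul c v).symm
        rw [h1, (hH j.1).smul_left, Complex.im_ofReal_mul]
        ring }
  have hφ : ∀ b ∈ latt Γ, φ b ∈ intFun J := fun b hb j => hI j.1 b hb j.2 (ht j.2.2)
  have hker : ∀ v, φ v = 0 ↔ ∀ i ∈ s, ∀ w, H i v w = 0 := by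
    intro v
    constructor
    · intro h i hi
      refine zero_of_im (hH i) hspan' ?_
      intro y hy
      have h1 : (N : ℝ) * (H i v y).im = 0 := congrFun h (⟨i, hi⟩, ⟨y, hy⟩)
      have h2 : (N : ℝ) ≠ 0 := by positivity
      exact (mul_eq_zero.1 h1).resolve_left h2
    · intro h
      funext j
      change (N : ℝ) * (H j.1 v j.2).im = 0
      rw [h j.1 j.1.2 j.2, Complex.zero_im, mul_zero]
  have h := rat_ker (V := V) (W := J → ℝ) (latt Γ) hΓ.discrete hΓ.span_top (intFun J) (discrete_intFun J) φ hφ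
  have h1 : x ∈ LinearMap.ker φ := (hker x).2 hx
  rw [← h] at h1
  have h2 : {b | b ∈ latt Γ ∧ φ b = 0} = {b | b ∈ latt Γ ∧ ∀ i ∈ s, ∀ w, H i b w = 0} := by
    ext b
    exact and_congr_right fun _ => hker b
  rwa [h2] at h1

omit [FiniteDimensional ℂ V] in
/-- The vectors fixed by a group of linear parts in a subspace spanned by lattice vectors. -/
theorem rat_fixed (hΓ : IsTorusQuotient Γ) (N : Subgroup (Lin Γ)) (R : Submodule ℂ V)
    (hst : ∀ g : Lin Γ, ∀ v ∈ R, g.1 v ∈ R)
    (hR : ∀ x ∈ R, x ∈ Submodule.span ℝ {b | b ∈ latt Γ ∧ b ∈ R})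
    {x : V} (hx : x ∈ R) (hxN : ∀ g ∈ N, g.1 x = x) :
    x ∈ Submodule.span ℝ {b | b ∈ latt Γ ∧ b ∈ R ∧ ∀ g ∈ N, g.1 b = b} := by
  classical
  have := finite_Lin hΓ
  have : Fintype (Lin Γ) := Fintype.ofFinite _
  let Ns : Finset (Lin Γ) := Finset.univ.filter (· ∈ N)
  have hNs : 1 ≤ Ns.card := Finset.card_pos.2 ⟨1, by
    rw [Finset.mem_filter]
    exact ⟨Finset.mem_univ _, N.one_mem⟩⟩
  let A : V →ₗ[ℝ] V := ∑ g ∈ Ns, ((g.1 : V →ₗ[ℂ] V).restrictScalars ℝ)
  have hA : ∀ v, A v = ∑ g ∈ Ns, g.1 v := by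
    intro v
    simp only [A, LinearMap.sum_apply]
    rfl
  have hfix : ∀ v, ∀ g ∈ N, g.1 (A v) = A v := by
    intro v g hg
    rw [hA, map_sum]
    refine Finset.sum_bij (fun h _ => g * h) ?_ ?_ ?_ ?_
    · intro h hh
      rw [Finset.mem_filter] at hh ⊢
      exact ⟨Finset.mem_univ _, N.mul_mem hg hh.2⟩
    · intro h _ h' _ heq
      exact mul_left_cancel heq
    · intro h hh
      rw [Finset.mem_filter] at hh
      exact ⟨g⁻¹ * h, by
        rw [Finset.mem_filter]
        exact ⟨Finset.mem_univ _, N.mul_mem (N.inv_mem hg) hh.2⟩, by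
        rw [mul_inv_cancel_left]⟩
    · intro h _
      rfl
  have hAK : ∀ b ∈ latt Γ, b ∈ R → A b ∈ latt Γ ∧ A b ∈ R := by
    intro b hb hbK
    rw [hA]
    refine ⟨(latt Γ).sum_mem ?_, R.sum_mem fun g _ => hst g b hbK⟩
    rintro ⟨g, γ, hγ, rfl⟩ -
    exact latt_inv γ hγ hb
  have h1 := hR x hx
  have h2 : A x ∈ Submodule.span ℝ {b | b ∈ latt Γ ∧ b ∈ R ∧ ∀ g ∈ N, g.1 b = b} := by
    have h3 : A x ∈ (Submodule.span ℝ {b | b ∈ latt Γ ∧ b ∈ R}).map A :=
      Submodule.mem_map_of_mem h1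
    rw [Submodule.map_span] at h3
    refine Submodule.span_mono ?_ h3
    rintro _ ⟨b, ⟨hb, hb0⟩, rfl⟩
    exact ⟨(hAK b hb hb0).1, (hAK b hb hb0).2, hfix b⟩
  have h3 : A x = (Ns.card : ℝ) • x := by
    rw [hA, Finset.sum_congr rfl fun g hg => hxN g (Finset.mem_filter.1 hg).2,
      Finset.sum_const, ← Nat.cast_smul_eq_nsmul ℝ]
  have h4 : x = ((Ns.card : ℝ)⁻¹) • A x := by
    rw [h3, smul_smul, inv_mul_cancel₀ (by positivity), one_smul]
  rw [h4]
  exact Submodule.smul_mem _ _ h2

end Pool.Agent.J4.H20.RT
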